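import Pool.Agent.Helper37.T5g.Cnt

/-!
# T5g (MP_12a1af): the buffer family and the product formula
-/

set_option autoImplicit false

namespace Pool.Agent.Helper37.T5g

open Finset Pool.Agent.Helper5.ET Pool.Agent.Helper27.T4 Pool.Agent.Helper27.T5b
open Pool.Agent.Helper27.T5 (sp gw)

variable {m : Sq} {k : ℕ}

/-! ## the buffer family -/

/-- the buffer digits are exactly the digits of the blocks before the borders -/
theorem ow_eq_none (hm : m.Ok) {l : ℕ} :
    ow (ins m k) own (ex m k) l = Sum.inr none ↔
      ∃ j, beg (ins m k) (bb j) ≤ l ∧ l < pos (ins m k) (bb j) := by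
  constructor
  · intro h
    rcases digit_cases (ins m k) l with h1 | ⟨r, hr, h1⟩
    · rw [h1, ow_pos] at h
      exact absurd h (by simp)
    · rw [h1, ow_beg hr] at h
      have h2 := Sum.inr_injective h
      rcases ins_cases (k := k) hm (l1 (ins m k) l) with h3 | ⟨j, h3, h4⟩ | ⟨t, n, hk, a1, a2, a3, a4⟩
      · omega
      · refine ⟨j, ?_, ?_⟩
        · rw [← h3]
          omega
        · rw [← h3, pos_eq]
          omega
      · rw [a3, ex_gd hm hk a1 a2] at h2
        exact absurd h2 (by simp)
  · rintro ⟨j, h1, h2⟩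
    have h3 : l = beg (ins m k) (bb j) + (l - beg (ins m k) (bb j)) := by omega
    rw [pos_eq] at h2
    rw [h3, ow_beg (by omega), ex_bb]

/-- without a border the buffer family does not move -/
theorem ct_none_eq (hm : m.Ok) {l' l : ℕ} (h : l' ≤ l)
    (hb : ∀ j, l1 (ins m k) l' ≤ bb j → l1 (ins m k) l < bb j) :
    ct (ins m k) own (ex m k) (Sum.inr none) l = ct (ins m k) own (ex m k) (Sum.inr none) l' := by
  symm
  rw [ct_eq_iff _ h]
  intro i h1 h2 h3
  obtain ⟨j, h4, h5⟩ := (ow_eq_none hm).1 h3
  -- `l1 i = bb j`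
  have h6 : l1 (ins m k) i = bb j := l1_eq_iff.2 ⟨h4, h5.le⟩
  have h7 := l1_mono (ins m k) h1
  have h8 := l1_mono (ins m k) h2.le
  have := hb j (by omega)
  omega

theorem card_none (y n : ℕ) :
    ((range n).filter (fun r => ex m k y r = none)).card = if y = bb (era y) then n else 0 := by
  by_cases h : y = bb (era y)
  · rw [if_pos h]
    have h2 : (range n).filter (fun r => ex m k y r = none) = range n := by
      apply filter_true_of_mem
      intro r _
      unfold ex
      rw [if_pos h]
    rw [h2, card_range]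
  · rw [if_neg h, card_eq_zero, filter_eq_empty_iff]
    intro r _
    unfold ex
    rw [if_neg h]
    simp

/-- **number of the buffer digits** up to the border block of the position -/
theorem ct_none (hm : m.Ok) (l : ℕ) :
    ct (ins m k) own (ex m k) (Sum.inr none) l =
      ∑ j ∈ (range (l1 (ins m k) l)).filter (fun j => bb j < l1 (ins m k) l), RB m (lv m k j) +
        if l1 (ins m k) l = bb (era (l1 (ins m k) l)) then
          l - beg (ins m k) (l1 (ins m k) l) else 0 := by
  rw [ct_extra, card_none]
  congr 1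
  rw [sum_congr rfl (fun y _ => card_none y (ins m k y))]
  rw [← sum_filter]
  symm
  apply sum_bij (fun j _ => bb j)
  · intro j hj
    rw [mem_filter, mem_range] at hj ⊢
    exact ⟨hj.2, by rw [era_bb]⟩
  · intro j _ j' _ h
    exact bb_strictMono.injective h
  · intro y hy
    rw [mem_filter, mem_range] at hy
    refine ⟨era y, ?_, hy.2.symm⟩
    rw [mem_filter, mem_range]
    have h1 : era y ≤ bb (era y) := le_bb _
    omega
  · intro j _
    rw [ins_bb hm]

/-- the sum over the eras -/
theorem ct_none_le (hm : m.Ok) {l : ℕ} (hl : bb 0 ≤ l1 (ins m k) l) :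
    ct (ins m k) own (ex m k) (Sum.inr none) l ≤
      ∑ j ∈ range (era (l1 (ins m k) l) + 1), RB m (lv m k j) := by
  rw [ct_none hm]
  set y := l1 (ins m k) l with hy
  have hs := era_spec y hl
  split_ifs with h
  · have h1 : (range y).filter (fun j => bb j < y) = range (era y) := by
      ext j
      rw [mem_filter, mem_range, mem_range]
      constructor
      · rintro ⟨_, h3⟩
        by_contra hc
        have := bb_strictMono.monotone (not_lt.1 hc)
        omega
      · intro h3
        have h4 := bb_strictMono h3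
        have h5 := le_bb j
        omega
    rw [h1, sum_range_succ]
    apply Nat.add_le_add_left
    have h2 := le_pos_l1 (ins m k) l
    rw [← hy, pos_eq] at h2
    have h3 := ins_bb (m := m) (k := k) hm (era y)
    rw [← h] at h3
    omega
  · rw [add_zero]
    apply sum_le_sum_of_subset
    intro j hj
    rw [mem_filter, mem_range] at hj
    rw [mem_range]
    by_contra hc
    have := bb_strictMono.monotone (show era y + 1 ≤ j by omega)
    omega

/-- **after the border block of the era** -/
theorem ct_none_eq_sum (hm : m.Ok) {l : ℕ} (hl : bb 0 < l1 (ins m k) l)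
    (h : bb (era (l1 (ins m k) l)) < l1 (ins m k) l) :
    ct (ins m k) own (ex m k) (Sum.inr none) l =
      ∑ j ∈ range (era (l1 (ins m k) l) + 1), RB m (lv m k j) := by
  rw [ct_none hm, if_neg (by omega), add_zero]
  apply sum_congr _ (fun _ _ => rfl)
  ext j
  rw [mem_filter, mem_range, mem_range]
  have hs := era_spec (l1 (ins m k) l) hl.le
  constructor
  · rintro ⟨_, h3⟩
    by_contra hc
    have := bb_strictMono.monotone (show era (l1 (ins m k) l) + 1 ≤ j by omega)
    omega
  · intro h3
    have h4 := bb_strictMono.monotone (show j ≤ era (l1 (ins m k) l) by omega)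
    have h5 := le_bb j
    omega

/-! ## the product -/

/-- owners below `l` -/
theorem ow_mem (hm : m.Ok) {l i T : ℕ} {f : Fin 3} (hi : i < l)
    (hl : bb 0 ≤ l1 (ins m k) l) (h : ow (ins m k) own (ex m k) i = Sum.inr (some (T, f))) :
    k < T ∧ T ≤ sv m k (l1 (ins m k) l) + 1 := by
  obtain ⟨h1, n, a1, a2, a3, a4⟩ := (ow_eq_some hm).1 h
  refine ⟨h1, ?_⟩
  by_contra hc
  have h5 := ct_late (k := k) (T := T) hm f (by omega) hl
  unfold ct at h5
  rw [card_eq_zero, filter_eq_empty_iff] at h5
  exact h5 (mem_range.2 hi) h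

/-- the owners below `l` as a finite set -/
noncomputable def ows (m : Sq) (k l : ℕ) : Finset (Fin 3 ⊕ Option (ℕ × Fin 3)) :=
  (univ : Finset (Fin 3)).image Sum.inl ∪ ({Sum.inr none} ∪
    ((Icc (k + 1) (sv m k (l1 (ins m k) l) + 1)) ×ˢ (univ : Finset (Fin 3))).image
      (fun p => Sum.inr (some p)))

theorem ow_mem_ows (hm : m.Ok) {l i : ℕ} (hi : i < l) (hl : bb 0 ≤ l1 (ins m k) l) :
    ow (ins m k) own (ex m k) i ∈ ows m k l := by
  unfold ows
  rw [mem_union, mem_union]
  cases h : ow (ins m k) own (ex m k) i with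
  | inl f =>
    left
    exact mem_image_of_mem _ (mem_univ f)
  | inr g =>
    right
    cases g with
    | none => left; exact mem_singleton_self _
    | some p =>
      right
      obtain ⟨T, f⟩ := p
      have h1 := ow_mem hm hi hl h
      apply mem_image_of_mem
      rw [mem_product, mem_Icc]
      exact ⟨⟨by omega, h1.2⟩, mem_univ _⟩

/-- **the chain as a product over the families** -/
theorem NP_prod (hm : m.Ok) {l : ℕ} (hl : bb 0 ≤ l1 (ins m k) l) :
    NP (ins m k) own (ex m k) pr (pe k) l =
      Nj (l1 (ins m k) l) * (1000039 ^ ct (ins m k) own (ex m k) (Sum.inr none) l *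
        ∏ T ∈ Icc (k + 1) (sv m k (l1 (ins m k) l) + 1), ∏ f : Fin 3,
          sp (3 * (T % (k + 3)) + f) ^ ct (ins m k) own (ex m k) (Sum.inr (some (T, f))) l) := by
  have h1 : NP (ins m k) own (ex m k) pr (pe k) l =
      ∏ g ∈ ows m k l, Sum.elim pr (pe k) g ^ ct (ins m k) own (ex m k) g l := by
    unfold NP ct
    rw [← prod_fiberwise_of_maps_to (s := range l) (t := ows m k l) (g := ow (ins m k) own (ex m k))
      (fun i hi => ow_mem_ows hm (mem_range.1 hi) hl)]
    apply prod_congr rfl
    intro g _
    rw [prod_congr rfl (g := fun _ => Sum.elim pr (pe k) g), prod_const]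
    intro i hi
    rw [mem_filter] at hi
    rw [hi.2]
  rw [h1]
  unfold ows
  rw [prod_union, prod_union, prod_image (fun a _ b _ h => Sum.inl_injective h), prod_singleton,
    prod_image (fun a _ b _ h => Option.some_injective _ (Sum.inr_injective h)), prod_product]
  · congr 1
    rw [Pool.Agent.Helper30.ET.Nj_eq_prod_fam]
    apply prod_congr rfl
    intro f _
    rw [ct_main]
    rfl
  · rw [disjoint_left]
    intro g h2 h3
    rw [mem_singleton] at h2
    rw [mem_image] at h3
    obtain ⟨p, _, h4⟩ := h3
    rw [h2] at h4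
    have := Sum.inr_injective h4
    exact absurd this (by simp)
  · rw [disjoint_left]
    intro g h2 h3
    rw [mem_image] at h2
    obtain ⟨f, _, rfl⟩ := h2
    rw [mem_union, mem_singleton, mem_image] at h3
    rcases h3 with h3 | ⟨p, _, h3⟩
    · exact absurd h3 (by simp)
    · exact absurd h3 (by simp)

/-- the product of the digits of the complete triple `T` -/
noncomputable def QT' (m : Sq) (k T : ℕ) : ℕ := ∏ f : Fin 3, sp (3 * (T % (k + 3)) + f) ^ zf m k T f

/-- product of the joint digits: main, buffer, newborn triple -/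
noncomputable def JJ (m : Sq) (k l : ℕ) : ℕ :=
  Nj (l1 (ins m k) l) * (1000039 ^ ct (ins m k) own (ex m k) (Sum.inr none) l *
    ∏ f : Fin 3, sp (3 * ((sv m k (l1 (ins m k) l) + 1) % (k + 3)) + f) ^
      ct (ins m k) own (ex m k) (Sum.inr (some (sv m k (l1 (ins m k) l) + 1, f))) l)

/-- **all digits = joint digits times the split triples** -/
theorem NP_JJ (hm : m.Ok) {l : ℕ} (hl : bb 0 ≤ l1 (ins m k) l) :
    NP (ins m k) own (ex m k) pr (pe k) l =
      (∏ T ∈ Icc (k + 1) (sv m k (l1 (ins m k) l)), QT' m k T) * JJ m k l := by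
  have hk := k_le_sv hm k (l1 (ins m k) l)
  rw [NP_prod hm hl]
  have h1 : Icc (k + 1) (sv m k (l1 (ins m k) l) + 1) =
      insert (sv m k (l1 (ins m k) l) + 1) (Icc (k + 1) (sv m k (l1 (ins m k) l))) := by
    ext T
    simp only [mem_insert, mem_Icc]
    omega
  have h2 : ∏ T ∈ Icc (k + 1) (sv m k (l1 (ins m k) l)), ∏ f : Fin 3,
      sp (3 * (T % (k + 3)) + f) ^ ct (ins m k) own (ex m k) (Sum.inr (some (T, f))) l =
      ∏ T ∈ Icc (k + 1) (sv m k (l1 (ins m k) l)), QT' m k T := by
    apply prod_congr rfl
    intro T hT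
    rw [mem_Icc] at hT
    unfold QT'
    apply prod_congr rfl
    intro f _
    rw [ct_split hm (by omega) f hT.2 hl]
  rw [h1, prod_insert (by simp), h2]
  unfold JJ
  ring

end Pool.Agent.Helper37.T5g
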