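import Pool.Agent.Helper84.T5g.Pair
import Pool.Agent.Helper37.T5g.Event
import Pool.Agent.Helper30.T5g.Index

/-!
# T5b (MP_12a1af): at most one event in a near pair of states
-/

set_option autoImplicit false

namespace Pool.Agent.Helper37.T5g

open Finset Pool.Agent.Helper5.ET Pool.Agent.Helper27.T4 Pool.Agent.Helper84.T5g
open Pool.Agent.Helper27.T5b (l1 l1_mono)

/-- the event between two near states -/
theorem event_of_near {m : Sq} {k l' l : ℕ} (hm : m.Ok) (hl : l' ≤ l) (h0 : bb 0 ≤ mL m k l')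
    (hk : kt m k ≤ era (mL m k l')) (hN : Near m k l' l) :
    Quiet m k (mL m k l') (mL m k l) ∨ Border m k (mL m k l') (mL m k l) ∨
      IsoEv m k (mL m k l') (mL m k l) ∨ OrdEv m k (mL m k l') (mL m k l) ∨
      UnkeyEv m k (mL m k l') (mL m k l) ∨ SplitEv m k (mL m k l') (mL m k l) ∨
      DropEv m k (mL m k l') (mL m k l) := by
  have h1 : mL m k l' ≤ mL m k l := l1_mono (ins m k) hl
  have h2 := era_mono h1
  have h3 := ZZ_mono hm k h2
  have h4 : 4 * (mL m k l - mL m k l') < ZZ m k (era (mL m k l')) := hN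
  exact event_cases hm h1 (hk.trans h2) h0 (by omega)

theorem oneEvent (m : Sq) (hm : m.Ok) : OneEventStmt m := by
  obtain ⟨l0, h0⟩ := Pool.Agent.Helper30.T5g.exists_late (k := m.k) hm 0 0
  refine ⟨l0, fun l l' hl' hl hN => ?_⟩
  obtain ⟨_, a2, a3, _, _⟩ := h0 l' hl'
  have hkl := k_le_lv hm m.k (era (mL m m.k l))
  have same : sv m m.k (mL m m.k l') = sv m m.k (mL m m.k l) →
      dv m m.k (mL m m.k l') = dv m m.k (mL m m.k l) →
      Same m m.k l' l ∧ SameB m m.k l' l := by
    intro h1 h2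
    refine ⟨h1, ?_⟩
    show dv m m.k (mL m m.k l') - m.k = dv m m.k (mL m m.k l) - m.k
    rw [h2]
  rcases event_of_near hm hl a2 a3 hN with h | h | h | h | h | h | h
  · exact Or.inl (same h.sv_eq h.dv_eq)
  · exact Or.inl (same (h.sv'.trans h.sv.symm) (h.dv'.trans h.dv.symm))
  · exact Or.inl (same (h.sv'.trans h.sv.symm) (h.dv'.trans h.dv.symm))
  · exact Or.inl (same (h.sv'.trans h.sv.symm) (h.dv'.trans h.dv.symm))
  · exact Or.inl (same (h.sv'.trans h.sv.symm) (h.dv'.trans h.dv.symm))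
  · right; right
    refine ⟨?_, ?_⟩
    · show sv m m.k (mL m m.k l') + 1 = sv m m.k (mL m m.k l)
      rw [h.sv', h.sv]
    · show dv m m.k (mL m m.k l') - m.k = dv m m.k (mL m m.k l) - m.k
      rw [h.dv', h.dv]
  · right; left
    refine ⟨h.sv'.trans h.sv.symm, ?_⟩
    show dv m m.k (mL m m.k l') - m.k + 1 = dv m m.k (mL m m.k l) - m.k
    rw [h.dv', h.dv]
    omega

end Pool.Agent.Helper37.T5g
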