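import Pool.Agent.Helper1.T5g.ZDefs
import Pool.Agent.Helper45.T5b.HL
import Pool.Agent.Helper45.T5g.Nb7
import Pool.Agent.Helper63.T5g.NumGen
import Pool.Agent.Helper22.NEARg.NearR

/-!
# T5g, lines 6 and 7: Z6, the number of pairs of windows for one target, times the price
-/

set_option autoImplicit false

namespace Pool.Agent.Helper37.T5g.ZWin

open Finset Real
open Pool.Agent.Helper27.T4 Pool.Agent.Helper37.T5g
open Pool.Agent.Helper5.ET (bb)
open Pool.Agent.Helper30.T5g (RT BP NL QF ez pz)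
open Pool.Agent.Helper84.T5g Pool.Agent.Helper57.T5 Pool.Agent.Helper22.SL
open Pool.Agent.Helper22.NEARg (wW lam RegE Bw)
open Pool.Agent.Helper44.T5g (IJ CJ Zw)
open Pool.Agent.Helper63.T5g (LateN lg exists_lateN lg_ge lg_mono Jn_real KG Jn_split)
open Pool.Agent.Helper1.T5 (APt)
open Pool.Agent.Helper1.T5g
open Pool.Agent.Helper87.SL (NumL)

variable {m : Sq} {k l' l : ℕ}

/-- the number of labels in logarithms -/
theorem IJ_le_exp (hm : m.Ok) (hle : l' ≤ l) (hs : sL m k l' = sL m k l)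
    (hbb : bb 0 ≤ mL m k l') :
    (IJ m k l l' : ℝ) ≤ Real.exp ((lg m k l - lg m k l') / 2) := by
  have hbl : bb 0 ≤ mL m k l := hbb.trans (Pool.Agent.Helper27.T5b.l1_mono _ hle)
  have h1 := Jn_real (Pool.Agent.Helper27.T5g.cpl_self (k := k) hm hbl)
  have h2 := Jn_real (Pool.Agent.Helper27.T5g.cpl_self (k := k) hm hbb)
  rw [hs] at h2
  have h3 : (Jn m k (sL m k l) l' : ℝ) * (IJ m k l l' : ℝ) ^ 2 ≤ Jn m k (sL m k l) l := by
    exact_mod_cast Pool.Agent.Helper63.T5g.IJ_sq_le m k hle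
  have hR : (0 : ℝ) < RT m k (sL m k l) := by exact_mod_cast Pool.Agent.Helper30.T5g.RT_pos m k _
  have h4 : (IJ m k l l' : ℝ) ^ 2 ≤ Real.exp (lg m k l - lg m k l') := by
    rw [h1, h2, div_mul_eq_mul_div, div_le_div_iff_of_pos_right hR] at h3
    rw [Real.exp_sub, le_div_iff₀ (Real.exp_pos _)]
    linarith
  have h5 : Real.exp ((lg m k l - lg m k l') / 2) ^ 2 = Real.exp (lg m k l - lg m k l') := by
    rw [← Real.exp_nat_mul]
    congr 1
    push_cast
    ring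
  rw [← h5] at h4
  exact le_of_sq_le_sq h4 (Real.exp_pos _).le

theorem PZo_F {t h : ℕ} (hh : 1 ≤ h) : (PZo m k l' l t h 0 0).F h =
    Jn m k (sL m k l) (ef m k l (t + h)) := by
  show (if h = 0 then _ else FF m k l (t + h)) = _
  rw [if_neg (by omega)]
  rfl

theorem PZo_F' {t h : ℕ} (hh : 1 ≤ h) (hs : sL m k l' = sL m k l) :
    (PZo m k l' l t h 0 0).F' h = Jn m k (sL m k l) (ef m k l' (t + h)) := by
  show (if h = 0 then _ else FF m k l' (t + h)) = _
  rw [if_neg (by omega), ← hs]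
  rfl

theorem PZo_p_le (t h r : ℕ) (i : Fin 3) : ((PZo m k l' l t h 0 0).p r i : ℝ) ≤ BP k := by
  have e : (PZo m k l' l t h 0 0).p r i = pz k (sL m k l - (t + r)) i := rfl
  rw [e]
  exact Nat.cast_le.2 (Pool.Agent.Helper30.T5g.pz_le k (sL m k l - (t + r)) i)

theorem PZo_A_le {t h : ℕ} (h3 : h ≤ 3) : (PZo m k l' l t h 0 0).A h ≤ KG k := by
  have h0 := Pool.Agent.Helper63.T5g.one_le_BP k
  have h1 : (1 : ℝ) ≤ 200 * (BP k : ℝ) ^ 2 := by nlinarith
  have h2 : (1 : ℝ) ≤ (BP k : ℝ) ^ 2 := one_le_pow₀ h0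
  unfold Pr.A KG
  calc ∏ i ∈ range h, (200 * ((PZo m k l' l t h 0 0).p i 0 : ℝ) * (PZo m k l' l t h 0 0).p i 1)
      ≤ ∏ _i ∈ range h, (200 * (BP k : ℝ) ^ 2) := by
        refine Finset.prod_le_prod (fun _ _ => Pool.Agent.Helper63.T5g.two_primes_nonneg _ _) (fun i _ => ?_)
        exact Pool.Agent.Helper63.T5g.two_primes_le (PZo_p_le t h i 0) (PZo_p_le t h i 1)
    _ = (200 * (BP k : ℝ) ^ 2) ^ h := by rw [Finset.prod_const, card_range]
    _ ≤ (200 * (BP k : ℝ) ^ 2) ^ 3 := pow_le_pow_right₀ h1 h3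
    _ ≤ _ := le_mul_of_one_le_right (by positivity) h2

theorem one_le_KG (k : ℕ) : 1 ≤ KG k := Pool.Agent.Helper63.T5g.one_le_KB k

/-- the sizes of the last level -/
theorem numL (hm : m.Ok) {t h : ℕ} (hle : l' ≤ l) (hs : sL m k l' = sL m k l) {c : ℝ}
    (hL : LateN m k c l') (h1 : 1 ≤ h) (h3 : h ≤ 3) (hr' : t + h ≤ rL m k l')
    (hD : 20 * (l - l') < 7 * wW m k l (t + h - 1)) :
    NumL (PZo m k l' l t h 0 0) (lg m k l - lg m k l') ((wW m k l (t + h) : ℝ) * lam)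
      ((wW m k l (t + h - 1) : ℝ) * lam) (lg m k (ef m k l (t + h)) - lg m k l)
      (lg m k (ef m k l' (t + h)) - lg m k l') (KG k) := by
  have hlam := Pool.Agent.Helper63.T5.lam_gt
  have hlam0 : 0 ≤ lam := by linarith
  have hbb : bb 0 ≤ mL m k l := hL.bb.trans (Pool.Agent.Helper27.T5b.l1_mono _ hle)
  have hR : (0 : ℝ) < RT m k (sL m k l) := by exact_mod_cast Pool.Agent.Helper30.T5g.RT_pos m k _
  have hM := Jn_real (Pool.Agent.Helper27.T5g.cpl_self (k := k) hm hbb)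
  have hM' := Jn_real (Pool.Agent.Helper27.T5g.cpl_self (k := k) hm hL.bb)
  rw [hs] at hM'
  have hF := Jn_real (Pool.Agent.Helper27.T5g.cpl_ef (k := k) hm hbb (t + h))
  have hF' := Jn_real (Pool.Agent.Helper27.T5g.cpl_ef (k := k) hm hL.bb (t + h))
  rw [hs] at hF'
  have hrb := Pool.Agent.Helper27.T5g.rL_bounds hm k l'
  have hsz : bL m k l' ≤ sL m k l - (t + h) := by omega
  have hsz2 : bL m k l' < sL m k l - (t + h - 1) := by omega
  have ld := hL.lead hm hle hsz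
  have ld' := hL.lead hm le_rfl hsz
  have e1 : ef m k l (t + h) = ez m (sL m k l - (t + h)) l := rfl
  have e2 : ef m k l' (t + h) = ez m (sL m k l - (t + h)) l' := by
    unfold ef
    rw [hs]
  have hw0 : (0 : ℝ) ≤ wW m k l (t + h) := Nat.cast_nonneg _
  have hw1 : (0 : ℝ) ≤ wW m k l (t + h - 1) := Nat.cast_nonneg _
  refine
    { D0 := ?_
      M := ?_
      M'0 := Pool.Agent.Helper27.T5g.Jn_pos _ _ _ _
      F := ?_
      F' := ?_
      sl := by rw [e1]; exact ld.1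
      su := by rw [e1]; exact ld.2
      sl' := by rw [e2]; exact ld'.1
      su' := by rw [e2]; exact ld'.2
      q2 := ?_
      deep := ?_
      w0 := mul_nonneg hw0 hlam0
      Dl := ?_
      K1 := one_le_KG k
      A := PZo_A_le h3 }
  · have := lg_mono m k hle
    linarith
  · show ((Jn m k (sL m k l) l : ℕ) : ℝ) = ((Jn m k (sL m k l) l' : ℕ) : ℝ) * _
    rw [hM, hM', Real.exp_sub]
    field_simp
  · show ((PZo m k l' l t h 0 0).F h : ℝ) = ((Jn m k (sL m k l) l : ℕ) : ℝ) * _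
    rw [PZo_F h1, hF, hM, Real.exp_sub]
    field_simp
  · show ((PZo m k l' l t h 0 0).F' h : ℝ) = ((Jn m k (sL m k l) l' : ℕ) : ℝ) * _
    rw [PZo_F' h1 hs, hF', hM', Real.exp_sub]
    field_simp
  · intro t' ht'
    have e : h = t' + 1 := ht'
    have e3 : (PZo m k l' l t h 0 0).q t' 2 = QF m k (sL m k l - (t + t')) 2 := rfl
    have e4 : t + t' = t + h - 1 := by omega
    rw [e3, e4]
    refine hL.q_ge hm hsz2 2 ?_
    rw [Pool.Agent.Helper63.T5.gw2]
    norm_num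
  · have f1 := Pool.Agent.Helper63.T5g.wW_step hm k l (i := t + h - 1) (by omega)
    have f0 : t + h - 1 + 1 = t + h := by omega
    rw [f0] at f1
    have f2 : (2 : ℝ) ^ 20 * (wW m k l (t + h) : ℝ) ≤ wW m k l (t + h - 1) := by exact_mod_cast f1
    norm_num at f2
    have f4 : 20 * (wW m k l (t + h) : ℝ) ≤ wW m k l (t + h - 1) := by linarith
    have f5 := mul_le_mul_of_nonneg_right f4 hlam0
    linarith
  · have hWb : SS m (bL m k l') ≤ wW m k l (t + h - 1) := SS_mono m hsz2.le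
    have f2 := hL.lg_le le_rfl hle hWb
    have f3 : 20 * ((l - l' : ℕ) : ℝ) ≤ 7 * (wW m k l (t + h - 1) : ℝ) := by exact_mod_cast hD.le
    refine f2.trans ?_
    rw [← mul_assoc]
    apply mul_le_mul_of_nonneg_right _ hlam0
    linarith

theorem tg_one {κ : Type*} {P : Pr κ} {Mk : κ → ℕ} (hP : P.Ok Mk) {x : ℕ}
    (hx : P.M' * P.L0 ∣ x) : Tg P 1 (fun _ => x) (fun _ => 1) where
  dvd := fun _ _ => hx
  inj := fun i hi j hj _ => by omega
  win := fun _ _ _ _ => Nat.lt_add_of_pos_right (Nat.mul_pos hP.posF hP.posL)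
  cls := fun r _ c => (card_filter_le _ _).trans (by simp)

theorem card_le_PP {κ : Type*} (P : Pr κ) (B B' : Finset ℕ) (x : ℕ) :
    ((B ×ˢ B').filter (fun q => P.M * P.L P.h * q.1 + P.M' * P.L P.h * q.2 ∈ APt P P.h x)).card ≤
      PP P 1 (fun _ => x) B B' := by
  unfold PP
  refine Finset.card_le_card_of_injOn (fun q => (0, q)) ?_ ?_
  · intro q hq
    have hq' := Finset.mem_filter.1 (Finset.mem_coe.1 hq)
    refine Finset.mem_coe.2 (Finset.mem_filter.2 ⟨Finset.mem_product.2 ⟨?_, hq'.1⟩, hq'.2⟩)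
    exact Finset.mem_range.2 Nat.one_pos
  · intro q _ q' _ he
    exact (Prod.mk.inj he).2

/-- the constant of the labels -/
noncomputable def KW (k : ℕ) : ℝ := ((((2 * (1000039 + BP k)) ^ 3 *
  (2 * (1000039 + BP k)) ^ 7 : ℕ)) : ℝ) * KG k

theorem one_le_KW (k : ℕ) : 1 ≤ KW k := by
  unfold KW
  have h1 : 1 ≤ (2 * (1000039 + BP k)) ^ 3 * (2 * (1000039 + BP k)) ^ 7 :=
    Nat.one_le_iff_ne_zero.2 (by positivity)
  have h2 : (1 : ℝ) ≤ (((2 * (1000039 + BP k)) ^ 3 * (2 * (1000039 + BP k)) ^ 7 : ℕ) : ℝ) := by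
    exact_mod_cast h1
  have h3 := one_le_KG k
  nlinarith

/-- **Z6**, from Z0 and Z3 -/
theorem winZS_of (hm : m.Ok) (hZ0 : HzS m k) (hZ3 : OkS m k)
    [hQ : Pool.Agent.Helper30.T5g.BigQ m k] : WinZS m k := by
  have hm0 := hm
  obtain ⟨l1, h1⟩ := exists_lateN hm k (1000 * Real.log (1152 * KW k))
  obtain ⟨l2, h2⟩ := Pool.Agent.Helper45.T5g.Bw_lt_RT hm0 k
  obtain ⟨l3, h3⟩ := hZ0
  obtain ⟨l4, h4⟩ := hZ3
  refine ⟨max (max l1 l2) (max l3 l4), fun l' l hl' hDZ w hR hR' t h ht hh hth => ?_⟩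
  simp only [max_le_iff] at hl'
  obtain ⟨⟨g1, g2⟩, g3, g4⟩ := hl'
  have hL := h1 l' g1
  have hb2 := h2 l' g2
  obtain ⟨-, z3, zr, zr', zc, zd, -⟩ := h3 l' l g3 hDZ
  obtain ⟨hOk, -⟩ := h4 l' l g4 hDZ
  have hs : sL m k l' = sL m k l := hDZ.same
  have hle := hDZ.le
  rw [← hth] at hR hR' z3 zr zr' zc zd ⊢
  have hP : (PZo m k l' l t h 0 0).Ok (Mk m k) := hOk t h ht hth 0 0
  have hNL := numL hm0 (t := t) (h := h) hle hs hL hh (by omega) zr' (zd _ (by omega))
  obtain ⟨Q, hQ, hB⟩ := hR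
  obtain ⟨Q', hQ', hB'⟩ := hR'
  have ew : wW m k l' (t + h) = wW m k l (t + h) := by
    unfold wW
    rw [hs]
  rw [ew] at hB'
  set P := PZo m k l' l t h 0 0 with hPdef
  set N := wW m k l (t + h) with hN
  set D := lg m k l - lg m k l' with hDdef
  have hrb := Pool.Agent.Helper27.T5g.rL_bounds hm0 k l'
  have hsz : bL m k l' ≤ sL m k l - (t + h) := by omega
  have hNbig : 1000 * Real.log (1152 * KW k) ≤ N := Pool.Agent.Helper45.T5g.big_wW hL hsz
  have hlam1 := Pool.Agent.Helper63.T5.lam_gt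
  have hlam0 : (0 : ℝ) ≤ Pool.Agent.Helper63.T5.lam := by linarith
  have hN0 : (0 : ℝ) ≤ N := Nat.cast_nonneg N
  have hDl : 0.35 * ((N : ℝ) * Pool.Agent.Helper63.T5.lam) ≤ D := by
    have h7 : 7 * (N : ℝ) ≤ 20 * ((l - l' : ℕ) : ℝ) := by exact_mod_cast zc
    have h8 := lg_ge m k hle
    calc 0.35 * ((N : ℝ) * Pool.Agent.Helper63.T5.lam)
        = (0.35 * (N : ℝ)) * Pool.Agent.Helper63.T5.lam := by ring
      _ ≤ ((l - l' : ℕ) : ℝ) * Pool.Agent.Helper63.T5.lam :=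
          mul_le_mul_of_nonneg_right (by linarith) hlam0
      _ ≤ _ := h8
  have hcop : (P.F' P.h / P.M').Coprime Q' := by
    have e1 : P.F' P.h = Jn m k (sL m k l) (ef m k l' (t + h)) := PZo_F' hh hs
    have e2 : P.M' = Jn m k (sL m k l) l' := rfl
    rw [e1, e2, Jn_split m k (sL m k l)
      (Pool.Agent.Helper63.T5g.lt_ef hm0 k l' (t + h)).le,
      Nat.mul_div_cancel_left _ (Pool.Agent.Helper27.T5g.Jn_pos _ _ _ _)]
    unfold NN
    refine Nat.Coprime.prod_left fun i _ => ?_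
    rw [← hs]
    exact hQ' i _
  -- the bound for one target
  set Y : ℝ := 1152 * (exp (-(D / 2)) * KG k * exp ((N : ℝ) / 10000) * exp ((N : ℝ) / 10000)) *
    exp (4 * ((N : ℝ) / 10000)) * exp (-(D / 400)) with hY
  have hone : ∀ x, P.M' * P.L0 ∣ x →
      (PP P 1 (fun _ => x) (Bw m k l (t + h) w) (Bw m k l' (t + h) w) : ℝ) * P.A P.h * P.pc P.h ≤
        Y := by
    intro x hx
    refine hNL.hL hP (tg_one hP hx) hh (exp_pos _).le (exp_pos _).le (by positivity) hB hB' hcop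
      ?_ ?_ (B0 := 17 * RT m k (sL m k l' - (t + h))) (fun b hb => hb2 _ (by omega) zr' w b hb)
      ?_ hDl (exp_pos _).le ?_
    · apply exp_le_exp.2
      linarith
    · apply exp_le_exp.2
      linarith
    · rw [hs]
      exact Pool.Agent.Helper45.T5g.RT17_le hm0 k _
    · rw [← exp_add]
      have e : -(D / 2) + D / 2 = 0 := by ring
      rw [e, exp_zero, Nat.cast_one]
  have hApos : 0 < P.A P.h := by
    unfold Pr.A
    refine Finset.prod_pos (fun i _ => ?_)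
    have a0 : (0 : ℝ) < P.p i 0 := Nat.cast_pos.2 (hP.prime i 0).pos
    have a1 : (0 : ℝ) < P.p i 1 := Nat.cast_pos.2 (hP.prime i 1).pos
    exact mul_pos (mul_pos (by norm_num) a0) a1
  have hpc : 0 < P.pc P.h := by
    obtain ⟨r, hr⟩ : ∃ r, P.h = r + 1 := ⟨h - 1, by show h = _; omega⟩
    rw [hr]
    have e : P.pc (r + 1) = (P.F' (r + 1) : ℝ) / P.F (r + 1) + 1 / (P.q r 2 : ℝ) := rfl
    rw [e]
    have a0 : (0 : ℝ) < P.q r 2 := by
      have : 0 < P.q r 2 := pow_pos (hP.prime r 2).pos _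
      exact Nat.cast_pos.2 this
    exact add_pos_of_nonneg_of_pos (div_nonneg (Nat.cast_nonneg _) (Nat.cast_nonneg _))
      (one_div_pos.2 a0)
  have hAp : 0 < P.A P.h * P.pc P.h := mul_pos hApos hpc
  have hY0 : 0 ≤ Y := by
    have := one_le_KG k
    positivity
  refine ⟨⌊Y / (P.A P.h * P.pc P.h)⌋₊, fun x hx => ?_, ?_⟩
  · apply Nat.le_floor
    rw [le_div_iff₀ hAp]
    refine le_trans ?_ (hone x hx)
    rw [mul_assoc]
    apply mul_le_mul_of_nonneg_right _ hAp.le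
    exact_mod_cast card_le_PP P _ _ x
  · have hE : ((⌊Y / (P.A P.h * P.pc P.h)⌋₊ : ℕ) : ℝ) * (P.A P.h * P.pc P.h) ≤ Y := by
      have := Nat.floor_le (div_nonneg hY0 hAp.le)
      rwa [le_div_iff₀ hAp] at this
    have hIJ := IJ_le_exp (k := k) hm0 hle hs hL.bb
    have hC : ((CSo k (sL m k l) 0 * CJ k (sL m k l) : ℕ) : ℝ) ≤
        (((2 * (1000039 + BP k)) ^ 3 * (2 * (1000039 + BP k)) ^ 7 : ℕ) : ℝ) := by
      exact_mod_cast Nat.mul_le_mul (Pool.Agent.Helper1.T5g.CSo_le' k _ _)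
        (Pool.Agent.Helper22.NEARg.CJ_le k _)
    set C := (((2 * (1000039 + BP k)) ^ 3 * (2 * (1000039 + BP k)) ^ 7 : ℕ) : ℝ) with hCdef
    have hK1 := one_le_KG k
    have hC0 : 0 ≤ C := Nat.cast_nonneg _
    calc (((CSo k (sL m k l) 0 * (CJ k (sL m k l) * IJ m k l l')) *
            ⌊Y / (P.A P.h * P.pc P.h)⌋₊ : ℕ) : ℝ) * P.A h * P.pc h
        = ((CSo k (sL m k l) 0 * CJ k (sL m k l) : ℕ) : ℝ) * (IJ m k l l' : ℝ) *
            (((⌊Y / (P.A P.h * P.pc P.h)⌋₊ : ℕ) : ℝ) * (P.A P.h * P.pc P.h)) := by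
          have e : P.h = h := rfl
          rw [e]
          push_cast
          ring
      _ ≤ C * exp (D / 2) * Y := by gcongr
      _ = 1152 * (C * KG k) * exp ((N : ℝ) / 10000) * exp ((N : ℝ) / 10000) *
            exp (4 * ((N : ℝ) / 10000)) * exp (-(D / 400)) * (exp (D / 2) * exp (-(D / 2))) := by
          rw [hY]
          ring
      _ = exp (Real.log (1152 * KW k)) * exp ((N : ℝ) / 10000) * exp ((N : ℝ) / 10000) *
            exp (4 * ((N : ℝ) / 10000)) * exp (-(D / 400)) := by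
          rw [← exp_add (D / 2), add_neg_cancel, exp_zero, mul_one, exp_log (by
            have := one_le_KW k
            positivity)]
          rfl
      _ = exp (Real.log (1152 * KW k) + (N : ℝ) / 10000 + (N : ℝ) / 10000 +
            4 * ((N : ℝ) / 10000) + -(D / 400)) := by
          rw [exp_add, exp_add, exp_add, exp_add]
      _ ≤ exp (-((N : ℝ) / 200)) := by
          apply exp_le_exp.2
          have a2 : 0.35 * ((N : ℝ) * 13) ≤ D := by
            refine le_trans ?_ hDl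
            have : (N : ℝ) * 13 ≤ (N : ℝ) * Pool.Agent.Helper63.T5.lam :=
              mul_le_mul_of_nonneg_left hlam1.le hN0
            linarith
          linarith

end Pool.Agent.Helper37.T5g.ZWin
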