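import Pool.Agent.Helper37.T5g.Chain

/-!
# T5g (MP_12a1af): insertions, events, split levels of the concrete chain
-/

set_option autoImplicit false

namespace Pool.Agent.Helper37.T5g

open Finset Pool.Agent.Helper5.ET Pool.Agent.Helper27.T4
open Pool.Agent.Helper27.T5 (sp gw)

variable {m : Sq} {k : ℕ}

/-! ## the newborn digits -/

theorem nE_le_nD (m : Sq) (k t : ℕ) : nE m k t ≤ nU m k t ∧ nU m k t ≤ nS m k t ∧ nS m k t ≤ nD m k t := by
  unfold nU nS nD
  omega

theorem ut_le_nE (m : Sq) (k t : ℕ) : ut m t ≤ nE m k t := Nat.le_add_right _ _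

theorem bb_le_ut (m : Sq) (t : ℕ) : bb (kt m t) ≤ ut m t := Nat.le_add_right _ _

/-- positions between the border and the last node of a special era -/
theorem era_of_mem (hm : m.Ok) {t y : ℕ} (h1 : bb (kt m (t + 1)) ≤ y)
    (h2 : y ≤ nD m k (t + 1) + Zt m (t + 1)) : era y = kt m (t + 1) := (phase_of_mem hm h1 h2).1

/-- growth positions -/
theorem gd_of (hm : m.Ok) {t n : ℕ} (hk : k ≤ t) (h1 : 1 ≤ n) (h2 : n ≤ nn m k (t + 1)) :
    gd m k (ut m (t + 1) + n * Bq m (t + 1)) := by
  have h3 : ut m (t + 1) + n * Bq m (t + 1) ≤ nE m k (t + 1) :=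
    Nat.add_le_add_left (Nat.mul_le_mul_right _ h2) _
  have h4 := nE_le_nD m k (t + 1)
  have h5 := bb_le_ut m (t + 1)
  have he : era (ut m (t + 1) + n * Bq m (t + 1)) = kt m (t + 1) :=
    era_of_mem (k := k) hm (by omega) (by omega)
  unfold gd
  rw [he, lv_kt hm hk]
  exact ⟨spec_kt hm hk, n, h1, h2, rfl⟩

theorem gd_iff (hm : m.Ok) (y : ℕ) : gd m k y ↔
    ∃ t n, k ≤ t ∧ 1 ≤ n ∧ n ≤ nn m k (t + 1) ∧ y = ut m (t + 1) + n * Bq m (t + 1) := by
  constructor
  · rintro ⟨h1, n, h2, h3, h4⟩
    exact ⟨_, n, k_le_lv hm _ _, h2, h3, h4⟩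
  · rintro ⟨t, n, hk, h1, h2, rfl⟩
    exact gd_of hm hk h1 h2

/-- the data of a growth position -/
theorem gd_data (hm : m.Ok) {t n : ℕ} (hk : k ≤ t) (h1 : 1 ≤ n) (h2 : n ≤ nn m k (t + 1)) :
    era (ut m (t + 1) + n * Bq m (t + 1)) = kt m (t + 1) ∧
      lv m k (era (ut m (t + 1) + n * Bq m (t + 1))) = t ∧
      bb (era (ut m (t + 1) + n * Bq m (t + 1))) < ut m (t + 1) + n * Bq m (t + 1) := by
  have h3 : ut m (t + 1) + n * Bq m (t + 1) ≤ nE m k (t + 1) :=
    Nat.add_le_add_left (Nat.mul_le_mul_right _ h2) _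
  have h4 := nE_le_nD m k (t + 1)
  have h5 := bb_le_ut m (t + 1)
  have h6 : 0 < n * Bq m (t + 1) := Nat.mul_pos h1 (Bq_pos _ _)
  have he : era (ut m (t + 1) + n * Bq m (t + 1)) = kt m (t + 1) :=
    era_of_mem (k := k) hm (by omega) (by omega)
  rw [he, lv_kt hm hk]
  exact ⟨rfl, rfl, by omega⟩

theorem not_gd_bb (hm : m.Ok) {y : ℕ} (h : gd m k y) : bb (era y) < y := by
  obtain ⟨t, n, hk, h1, h2, rfl⟩ := (gd_iff hm y).1 h
  exact (gd_data hm hk h1 h2).2.2

theorem ins_bb (hm : m.Ok) (j : ℕ) : ins m k (bb j) = RB m (lv m k j) := by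
  unfold ins
  have h : ¬ gd m k (bb j) := by
    intro h
    have := not_gd_bb hm h
    rw [era_bb] at this
    omega
  rw [era_bb, if_pos rfl, if_neg h, add_zero]

theorem ins_gd (hm : m.Ok) {y : ℕ} (h : gd m k y) : ins m k y = 1 := by
  unfold ins
  have h1 := not_gd_bb hm h
  rw [if_neg (by omega), if_pos h]

theorem ins_zero {y : ℕ} (h1 : y ≠ bb (era y)) (h2 : ¬ gd m k y) : ins m k y = 0 := by
  unfold ins
  rw [if_neg h1, if_neg h2]

theorem ins_le_one {y : ℕ} (h1 : y ≠ bb (era y)) : ins m k y ≤ 1 := by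
  unfold ins
  rw [if_neg h1]
  split_ifs <;> omega

theorem ex_bb (j r : ℕ) : ex m k (bb j) r = none := by
  unfold ex
  rw [era_bb, if_pos rfl]

/-- the owner of the newborn digit number `n` -/
theorem ex_gd (hm : m.Ok) {t n : ℕ} (hk : k ≤ t) (h1 : 1 ≤ n) (h2 : n ≤ nn m k (t + 1)) (r : ℕ) :
    ex m k (ut m (t + 1) + n * Bq m (t + 1)) r = some (t + 1, nf m k (t + 1) n) := by
  obtain ⟨a1, a2, a3⟩ := gd_data hm hk h1 h2
  unfold ex
  rw [if_neg a3.ne', a2, Nat.add_sub_cancel_left, Nat.mul_div_cancel _ (Bq_pos _ _)]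

/-- `0` or a border or a growth position -/
theorem ins_cases (hm : m.Ok) (y : ℕ) :
    (ins m k y = 0) ∨ (∃ j, y = bb j ∧ ins m k y = RB m (lv m k j)) ∨
      (∃ t n, k ≤ t ∧ 1 ≤ n ∧ n ≤ nn m k (t + 1) ∧ y = ut m (t + 1) + n * Bq m (t + 1) ∧
        ins m k y = 1) := by
  by_cases h1 : y = bb (era y)
  · right; left
    refine ⟨era y, h1, ?_⟩
    conv_lhs => rw [h1]
    exact ins_bb hm _
  · by_cases h2 : gd m k y
    · right; right
      obtain ⟨t, n, hk, a1, a2, rfl⟩ := (gd_iff hm y).1 h2
      exact ⟨t, n, hk, a1, a2, rfl, ins_gd hm h2⟩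
    · left
      exact ins_zero h1 h2

/-! ## insertions in an interval -/

open Classical in
theorem card_mult_le {B : ℕ} (hB : 0 < B) (u y' y : ℕ) :
    ((Icc y' y).filter (fun z => ∃ n, z = u + n * B)).card ≤ (y - y') / B + 1 := by
  rcases Nat.lt_or_ge y y' with h | h
  · rw [Icc_eq_empty (by omega)]
    simp
  · -- the map `z ↦ (z - y') / B` is injective on the set
    have h1 : ((Icc y' y).filter (fun z => ∃ n, z = u + n * B)).card ≤
        (range ((y - y') / B + 1)).card := by
      apply card_le_card_of_injOn (fun z => (z - y') / B)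
      · intro z hz
        simp only [coe_filter, Set.mem_ofPred_eq, mem_Icc, coe_range, Set.mem_Iio] at hz ⊢
        have : (z - y') / B ≤ (y - y') / B := Nat.div_le_div_right (by omega)
        omega
      · intro z hz w hw hzw
        simp only [coe_filter, Set.mem_ofPred_eq, mem_Icc] at hz hw
        obtain ⟨⟨z1, z2⟩, n, hn⟩ := hz
        obtain ⟨⟨w1, w2⟩, n', hn'⟩ := hw
        simp only at hzw
        by_contra hne
        -- two different elements differ by at least `B`
        have key : ∀ a b : ℕ, a < b → u + a * B ≥ y' → (u + a * B - y') / B <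
            (u + b * B - y') / B := by
          intro a b hab hy
          obtain ⟨c, rfl⟩ := Nat.exists_eq_add_of_lt hab
          have e : u + (a + c + 1) * B - y' = (u + a * B - y') + (c + 1) * B := by
            have : (a + c + 1) * B = a * B + (c + 1) * B := by ring
            omega
          rw [e, Nat.add_mul_div_right _ _ hB]
          omega
        rcases Nat.lt_trichotomy n n' with h2 | h2 | h2
        · have := key n n' h2 (by omega)
          rw [← hn, ← hn'] at this
          omega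
        · subst h2
          exact hne (hn.trans hn'.symm)
        · have := key n' n h2 (by omega)
          rw [← hn, ← hn'] at this
          omega
    rwa [card_range] at h1

open Classical in
/-- without a border: at most one newborn digit in every `Bq` main digits -/
theorem sum_ins_le {y' y : ℕ} (h1 : bb (era y) < y') :
    ∑ z ∈ Icc y' y, ins m k z ≤ (y - y') / Bq m (lv m k (era y) + 1) + 1 := by
  rcases Nat.lt_or_ge y y' with h | h
  · rw [Icc_eq_empty (by omega)]
    simp
  have hy0 : bb 0 ≤ y := (bb_strictMono.monotone (Nat.zero_le _)).trans (by omega : bb (era y) ≤ y)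
  have hera : ∀ z ∈ Icc y' y, era z = era y := by
    intro z hz
    rw [mem_Icc] at hz
    exact era_eq _ _ (by omega) (lt_of_le_of_lt hz.2 (era_spec y hy0).2)
  have h2 : ∀ z ∈ Icc y' y, ins m k z ≤
      if (∃ n, z = ut m (lv m k (era y) + 1) + n * Bq m (lv m k (era y) + 1)) then 1 else 0 := by
    intro z hz
    have he := hera z hz
    rw [mem_Icc] at hz
    have hne : z ≠ bb (era z) := by rw [he]; omega
    split_ifs with h3
    · exact ins_le_one hne
    · rw [ins_zero hne]
      rintro ⟨_, n, _, _, h4⟩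
      rw [he] at h4
      exact h3 ⟨n, h4⟩
  refine (sum_le_sum h2).trans ?_
  rw [← card_filter]
  exact card_mult_le (Bq_pos _ _) _ _ _

/-- there are no insertions outside borders and growth stretches -/
theorem ins_eq_zero_of {y : ℕ} (h1 : y ≠ bb (era y))
    (h2 : spec m k (era y) → y ≤ ut m (lv m k (era y) + 1) ∨ nE m k (lv m k (era y) + 1) < y) :
    ins m k y = 0 := by
  apply ins_zero h1
  rintro ⟨h3, n, h4, h5, h6⟩
  have h7 : 0 < n * Bq m (lv m k (era y) + 1) := Nat.mul_pos h4 (Bq_pos _ _)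
  have h8 : n * Bq m (lv m k (era y) + 1) ≤
      nn m k (lv m k (era y) + 1) * Bq m (lv m k (era y) + 1) := Nat.mul_le_mul_right _ h5
  have h9 := h2 h3
  unfold nE at h9
  omega

/-! ## distances -/

/-- distance of the events in the era `j` -/
def ZZ (m : Sq) (k j : ℕ) : ℕ := if spec m k j then Zt m (lv m k j + 1) else Zt m (lv m k j)

theorem Zt_mono (m : Sq) : Monotone (Zt m) := fun _ _ h => Nat.mul_le_mul_left _ (SS_mono m h)

theorem ZZ_pos (m : Sq) (k j : ℕ) : 0 < ZZ m k j := by
  unfold ZZ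
  split_ifs <;> exact Zt_pos _ _

theorem Zt_lv_le (m : Sq) (k j : ℕ) : Zt m (lv m k j) ≤ ZZ m k j := by
  unfold ZZ
  split_ifs
  · exact Zt_mono m (Nat.le_succ _)
  · exact le_rfl

/-- events are far from each other, and `ZZ` is small against the border -/
theorem ZZ_small (hm : m.Ok) {j : ℕ} (hj : kt m k ≤ j) : 2 ^ 200 * ZZ m k j ≤ bb j := by
  unfold ZZ
  split_ifs with h
  · have h1 := Zt_len hm (lv m k j + 1)
    unfold spec at h
    rwa [h] at h1
  · refine (Zt_len hm (lv m k j)).trans (bb_strictMono.monotone ?_)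
    have h1 := k_le_lv hm k j
    rcases Nat.eq_or_lt_of_le h1 with h2 | h2
    · rwa [← h2]
    · obtain ⟨t, ht⟩ := Nat.exists_eq_add_of_lt h2
      have h3 : lv m k j - 1 < lv m k j := by omega
      have h4 := ((lt_lv_iff hm).1 h3).resolve_left (by omega)
      rw [show lv m k j - 1 + 1 = lv m k j by omega] at h4
      exact h4.le

theorem not_spec_succ (hm : m.Ok) {j : ℕ} (h : spec m k j) : ¬ spec m k (j + 1) := by
  intro h1
  unfold spec at h1
  rw [lv_succ hm, if_pos h] at h1
  unfold spec at h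
  have h2 := bb_kt_succ hm (lv m k j + 1)
  rw [h1] at h2
  rw [h] at h2
  have h3 := bb_succ_le j
  have h4 := bb_ge_pow j
  omega

theorem ZZ_mono (hm : m.Ok) (k : ℕ) : Monotone (ZZ m k) := by
  apply monotone_nat_of_le_succ
  intro j
  by_cases h : spec m k j
  · have h1 := not_spec_succ hm h
    unfold ZZ
    rw [if_pos h, if_neg h1, lv_succ hm, if_pos h]
  · have h1 : ZZ m k j = Zt m (lv m k j) := by
      unfold ZZ
      rw [if_neg h]
    have h2 := Zt_lv_le m k (j + 1)
    rw [lv_succ hm, if_neg h] at h2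
    rw [h1]
    exact h2

/-- `ZZ` and the length of the era -/
theorem ZZ_len (hm : m.Ok) {j : ℕ} (hj : kt m k ≤ j) : 1024 * ZZ m k j ≤ bb j ∧
    256 * ZZ m k j ≤ len j := by
  have h1 := big_aux (ZZ_small (k := k) hm hj)
  have h2 := len_bounds j
  have h3 := bb_ge_pow j
  constructor
  · exact h1
  · omega

/-! ## split levels and dropped levels -/

theorem lv_le_sv (m : Sq) (k y : ℕ) : lv m k (era y) ≤ sv m k y := Nat.le_add_right _ _

theorem dv_le_sv (m : Sq) (k y : ℕ) : dv m k y ≤ sv m k y ∧ sv m k y ≤ dv m k y + 1 := by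
  have h1 := nE_le_nD m k (lv m k (era y) + 1)
  unfold dv sv
  split_ifs with h2 h3 h3
  · omega
  · exact absurd ⟨h2.1, h1.2.2.trans h2.2⟩ h3
  · omega
  · omega

theorem sv_le_lv_succ (m : Sq) (k y : ℕ) : sv m k y ≤ lv m k (era y) + 1 := by
  unfold sv
  split_ifs <;> omega

theorem k_le_sv (hm : m.Ok) (k y : ℕ) : k ≤ sv m k y := (k_le_lv hm k _).trans (lv_le_sv _ _ _)

theorem k_le_dv (hm : m.Ok) (k y : ℕ) : k ≤ dv m k y :=
  (k_le_lv hm k _).trans (Nat.le_add_right _ _)

/-- at the end of an era everything is done -/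
theorem sv_le_lv_next (hm : m.Ok) (y : ℕ) : sv m k y ≤ lv m k (era y + 1) := by
  rw [lv_succ hm]
  unfold sv
  split_ifs with h1 h2 h3
  · omega
  · exact absurd h1.1 h2
  · omega
  · omega

theorem dv_le_lv_next (hm : m.Ok) (y : ℕ) : dv m k y ≤ lv m k (era y + 1) :=
  (dv_le_sv m k y).1.trans (sv_le_lv_next hm y)

theorem sv_mono (hm : m.Ok) (k : ℕ) : Monotone (sv m k) := by
  intro y' y h
  rcases Nat.eq_or_lt_of_le (era_mono h) with h1 | h1
  · unfold sv
    rw [h1]
    apply Nat.add_le_add_left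
    split_ifs with h2 h3
    · exact le_rfl
    · exact absurd ⟨h2.1, h2.2.trans h⟩ h3
    · omega
    · exact le_rfl
  · exact (sv_le_lv_next hm y').trans ((lv_mono hm k (Nat.succ_le_of_lt h1)).trans (lv_le_sv _ _ _))

theorem dv_mono (hm : m.Ok) (k : ℕ) : Monotone (dv m k) := by
  intro y' y h
  rcases Nat.eq_or_lt_of_le (era_mono h) with h1 | h1
  · unfold dv
    rw [h1]
    apply Nat.add_le_add_left
    split_ifs with h2 h3
    · exact le_rfl
    · exact absurd ⟨h2.1, h2.2.trans h⟩ h3
    · omega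
    · exact le_rfl
  · exact (dv_le_lv_next hm y').trans
      ((lv_mono hm k (Nat.succ_le_of_lt h1)).trans (Nat.le_add_right _ _))

/-- the level at the position `y`: characterization by the SPLIT nodes -/
theorem lt_sv_iff (hm : m.Ok) {t y : ℕ} (hk : k ≤ t) (hy : bb 0 ≤ y) :
    t < sv m k y ↔ nS m k (t + 1) ≤ y := by
  have hs := era_spec y hy
  have hN := nE_le_nD m k (t + 1)
  have hnD := nD_le hm k t
  have hlen := bb_add_len (kt m (t + 1))
  have hb := bb_le_ut m (t + 1)
  have hu := ut_le_nE m k (t + 1)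
  rcases Nat.lt_trichotomy (kt m (t + 1)) (era y) with h | h | h
  · -- earlier era
    have h1 : t < lv m k (era y) := (lt_lv_iff hm).2 (Or.inr h)
    have h2 := lv_le_sv m k y
    have h3 : bb (kt m (t + 1) + 1) ≤ bb (era y) := bb_strictMono.monotone h
    constructor
    · intro _
      omega
    · intro _
      omega
  · have hl : lv m k (era y) = t := by rw [← h, lv_kt hm hk]
    have hsp : spec m k (era y) := by rw [← h]; exact spec_kt hm hk
    unfold sv
    rw [hl]
    split_ifs with h2
    · exact ⟨fun _ => h2.2, fun _ => by omega⟩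
    · constructor
      · intro h3
        omega
      · intro h3
        exact absurd ⟨hsp, h3⟩ h2
  · -- later era
    have h1 : ¬ t < lv m k (era y + 1) := by
      rw [lt_lv_iff hm]
      omega
    have h2 := sv_le_lv_next (k := k) hm y
    have h3 : bb (era y + 1) ≤ bb (kt m (t + 1)) := bb_strictMono.monotone h
    constructor
    · intro _
      omega
    · intro _
      omega

/-- the dropped levels: characterization by the DROP nodes -/
theorem lt_dv_iff (hm : m.Ok) {t y : ℕ} (hk : k ≤ t) (hy : bb 0 ≤ y) :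
    t < dv m k y ↔ nD m k (t + 1) ≤ y := by
  have hs := era_spec y hy
  have hN := nE_le_nD m k (t + 1)
  have hnD := nD_le hm k t
  have hlen := bb_add_len (kt m (t + 1))
  have hb := bb_le_ut m (t + 1)
  have hu := ut_le_nE m k (t + 1)
  rcases Nat.lt_trichotomy (kt m (t + 1)) (era y) with h | h | h
  · have h1 : t < lv m k (era y) := (lt_lv_iff hm).2 (Or.inr h)
    have h2 : lv m k (era y) ≤ dv m k y := Nat.le_add_right _ _
    have h3 : bb (kt m (t + 1) + 1) ≤ bb (era y) := bb_strictMono.monotone h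
    constructor
    · intro _
      omega
    · intro _
      omega
  · have hl : lv m k (era y) = t := by rw [← h, lv_kt hm hk]
    have hsp : spec m k (era y) := by rw [← h]; exact spec_kt hm hk
    unfold dv
    rw [hl]
    split_ifs with h2
    · exact ⟨fun _ => h2.2, fun _ => by omega⟩
    · constructor
      · intro h3
        omega
      · intro h3
        exact absurd ⟨hsp, h3⟩ h2
  · have h1 : ¬ t < lv m k (era y + 1) := by
      rw [lt_lv_iff hm]
      omega
    have h2 := dv_le_lv_next (k := k) hm y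
    have h3 : bb (era y + 1) ≤ bb (kt m (t + 1)) := bb_strictMono.monotone h
    constructor
    · intro _
      omega
    · intro _
      omega

end Pool.Agent.Helper37.T5g
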