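import Pool.Agent.Helper63.T5g.NumB
import Pool.Agent.Helper22.NEARg.Glue

/-!
# T5g, block NEARg: exponents (Nb10)
-/

set_option autoImplicit false

namespace Pool.Agent.Helper37.T5g.NumB

open Finset
open Pool.Agent.Helper27.T4
open Pool.Agent.Helper37.T5g Pool.Agent.Helper99.T5g
open Pool.Agent.Helper30.T5g hiding pz_prime pz_inj NL_pos
open Pool.Agent.Helper22.HW Pool.Agent.Helper22.SL Pool.Agent.Helper57.T5
open Pool.Agent.Helper84.T5g Pool.Agent.Helper44.T5 Pool.Agent.Helper44.T5g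
open Pool.Agent.Helper22.NEARg

/-- bound for the decoding constants -/
theorem CD_le {m : Sq} (hm : OkF m) : ((2 * BP m.k) ^ 3) ^ 3 ≤ 2 ^ (2 * m.q 0) := by
  have hB : 1 ≤ BP m.k := Pool.Agent.Helper99.T5g.BP_pos' m.k
  have hk : 2 ≤ m.k := hm.k2
  have h2 := hm.BP16_le
  have h1 : 2 * BP m.k ≤ 2 ^ 40 * BP m.k := Nat.mul_le_mul_right _ (by norm_num)
  generalize hY : 2 ^ 40 * BP m.k = Y at *
  calc ((2 * BP m.k) ^ 3) ^ 3 ≤ (Y ^ 3) ^ 3 := by gcongr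
    _ = Y ^ 9 := by ring
    _ ≤ Y ^ (16 * 2) := Nat.pow_le_pow_right (by omega) (by omega)
    _ = (Y ^ 16) ^ 2 := pow_mul _ _ _
    _ ≤ (2 ^ m.q 0) ^ 2 := Nat.pow_le_pow_left h2 2
    _ = 2 ^ (2 * m.q 0) := by rw [← pow_mul, mul_comm]

theorem Cd_le {m : Sq} {t l' l : ℕ} (hm : OkF m) (h : PDb m m.k t l' l) :
    Pool.Agent.Helper39.SL.Cd (PN m m.k t l' l) ≤ 2 ^ (2 * m.q 0) := by
  have h3 : hb m m.k t l' l ≤ 3 := Pool.Agent.Helper63.T5g.hb_le_three hm.toOk h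
  have hsp : 1 ≤ 2 * BP m.k := by
    have := Pool.Agent.Helper99.T5g.BP_pos' m.k
    omega
  have h1 : ∀ r ∈ range (PN m m.k t l' l).h,
      ∏ i, (2 * ((PN m m.k t l' l).p r i - 1)) ≤ (2 * BP m.k) ^ 3 := by
    intro r _
    calc ∏ i, (2 * ((PN m m.k t l' l).p r i - 1)) ≤ ∏ _i : Fin 3, (2 * BP m.k) := by
          apply prod_le_prod'
          intro i _
          have h2 : (PN m m.k t l' l).p r i = pz m.k (sL m m.k l - (t + r)) i := rfl
          have h4 := pz_le m.k (sL m m.k l - (t + r)) i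
          rw [h2]
          omega
      _ = (2 * BP m.k) ^ 3 := by rw [prod_const, card_univ, Fintype.card_fin]
  refine le_trans ?_ (CD_le hm)
  unfold Pool.Agent.Helper39.SL.Cd
  calc ∏ r ∈ range (PN m m.k t l' l).h, ∏ i, (2 * ((PN m m.k t l' l).p r i - 1)) ≤
        ∏ _r ∈ range (PN m m.k t l' l).h, (2 * BP m.k) ^ 3 := prod_le_prod' h1
    _ = ((2 * BP m.k) ^ 3) ^ (hb m m.k t l' l) := by
        rw [prod_const, card_range]
        rfl
    _ ≤ ((2 * BP m.k) ^ 3) ^ 3 := Nat.pow_le_pow_right (Nat.pos_of_ne_zero (by positivity)) h3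

/-- the windows at distance `d` -/
theorem wW_eq {m : Sq} (hm : OkF m) {k l t d : ℕ} (hd : t + d ≤ sL m k l) :
    wW m k l t = wW m k l (t + d) * 2 ^ ((m.q 0 + 1) * d) := by
  unfold wW
  rw [← SS_add hm]
  congr 1
  omega

/-- the last window -/
theorem wW_rL {m : Sq} {k l : ℕ} (hm : m.Ok) : wW m k l (rL m k l) = SS m (bL m k l) := by
  have hb := Pool.Agent.Helper27.T5g.rL_bounds hm k l
  unfold wW
  congr 1
  unfold rL at hb ⊢
  omega

/-- the common estimate: `W` the large window, `V` the small one, `S` the last one -/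
theorem num_main {q h D d W W' V S : ℕ} (hq : 400 ≤ q) (hh : h ≤ 3) (hd : d ≤ 4)
    (hD : D ≤ 2 ^ (2 * q)) (hW : W = V * 2 ^ ((q + 1) * d)) (hW' : W' ≤ W) (hS : S ≤ W)
    (hW1 : 1 ≤ W) (E1 : ℕ) :
    42 * (W' : ℝ) + 3 + S + 90 * W ≤ ((2 ^ (4 * (q + 1) + 15) + 1 : ℕ) : ℝ) * ((V : ℝ) / 200) ∧
    (2 ^ (4 * (q + 1) + 15) + 1) ^ 2 ^ (4 * h) * (D * 2 ^ (E1 * q)) ≤
      2 ^ ((5 * 2 ^ 12 + 2 + E1) * q) := by
  constructor
  · have h1 : W ≤ V * 2 ^ (4 * (q + 1)) := by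
      rw [hW]
      refine Nat.mul_le_mul_left _ (Nat.pow_le_pow_right (by norm_num) ?_)
      rw [mul_comm 4]
      exact Nat.mul_le_mul_left _ hd
    have h2 : 200 * (136 * W) ≤ 2 ^ (4 * (q + 1) + 15) * V := by
      rw [pow_add]
      calc 200 * (136 * W) = 27200 * W := by ring
        _ ≤ 2 ^ 15 * (V * 2 ^ (4 * (q + 1))) := Nat.mul_le_mul (by norm_num) h1
        _ = _ := by ring
    have h3 : 42 * W' + 3 + S + 90 * W ≤ 136 * W := by omega
    have h4 : 200 * (42 * W' + 3 + S + 90 * W) ≤ (2 ^ (4 * (q + 1) + 15) + 1) * V := by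
      calc 200 * (42 * W' + 3 + S + 90 * W) ≤ 200 * (136 * W) := Nat.mul_le_mul_left _ h3
        _ ≤ 2 ^ (4 * (q + 1) + 15) * V := h2
        _ ≤ _ := Nat.mul_le_mul_right _ (Nat.le_succ _)
    have h5 : (200 : ℝ) * (42 * (W' : ℝ) + 3 + S + 90 * W) ≤
        ((2 ^ (4 * (q + 1) + 15) + 1 : ℕ) : ℝ) * V := by exact_mod_cast h4
    linarith
  · have h1 : 2 ^ (4 * (q + 1) + 15) + 1 ≤ 2 ^ (5 * q) := by
      have e1 : 2 ^ (4 * (q + 1) + 15) + 1 ≤ 2 ^ (4 * (q + 1) + 15) * 2 := by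
        have : 0 < 2 ^ (4 * (q + 1) + 15) := by positivity
        omega
      refine e1.trans ?_
      rw [← pow_succ]
      exact Nat.pow_le_pow_right (by norm_num) (by omega)
    have h2 : (2 ^ (4 * (q + 1) + 15) + 1) ^ 2 ^ (4 * h) ≤ (2 ^ (5 * q)) ^ 2 ^ 12 := by
      calc (2 ^ (4 * (q + 1) + 15) + 1) ^ 2 ^ (4 * h) ≤ (2 ^ (5 * q)) ^ 2 ^ (4 * h) :=
            Nat.pow_le_pow_left h1 _
        _ ≤ _ := Nat.pow_le_pow_right (by positivity)
            (Nat.pow_le_pow_right (by norm_num) (by omega))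
    calc (2 ^ (4 * (q + 1) + 15) + 1) ^ 2 ^ (4 * h) * (D * 2 ^ (E1 * q))
        ≤ (2 ^ (5 * q)) ^ 2 ^ 12 * (2 ^ (2 * q) * 2 ^ (E1 * q)) :=
          Nat.mul_le_mul h2 (Nat.mul_le_mul_right _ hD)
      _ = 2 ^ ((5 * 2 ^ 12 + 2 + E1) * q) := by
          rw [← pow_mul, ← pow_add, ← pow_add]
          congr 1
          ring

/-- **Nb10** -/
theorem num_reg : NumRegS := by
  intro E1
  refine ⟨5 * 2 ^ 12 + 2 + E1, fun m hm => ⟨0, ?_⟩⟩
  intro t l' l _ h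
  have h3 : hb m m.k t l' l ≤ 3 := Pool.Agent.Helper63.T5g.hb_le_three hm.toOk h
  have hle : t + hb m m.k t l' l ≤ rL m m.k l := hb_le h.tr
  have hrb := Pool.Agent.Helper27.T5g.rL_bounds hm.toOk m.k l
  have hW := wW_eq hm (k := m.k) (l := l) (t := t) (d := hb m m.k t l' l) (by omega)
  have hW2 : SS m (bL m m.k l) ≤ wW m m.k l t := by
    unfold wW
    exact SS_mono m (by omega)
  have hW1 : 1 ≤ wW m m.k l t := by
    unfold wW SS
    exact Nat.one_le_two_pow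
  obtain ⟨g1, g2⟩ := num_main (hm.toOk.q 0) h3 (h3.trans (by norm_num)) (Cd_le hm h) hW le_rfl hW2
    hW1 E1
  exact ⟨_, Nat.one_le_two_pow, g1, g2⟩

end Pool.Agent.Helper37.T5g.NumB
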