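import Pool.Agent.Helper37.T5g.NumB
import Pool.Agent.Helper22.NEARsg.Defs

/-!
# T5g, block NEARsg: exponents (S10)
-/

set_option autoImplicit false

namespace Pool.Agent.Helper37.T5g.NumS

open Finset
open Pool.Agent.Helper27.T4
open Pool.Agent.Helper37.T5g Pool.Agent.Helper99.T5g
open Pool.Agent.Helper30.T5g hiding pz_prime pz_inj NL_pos
open Pool.Agent.Helper22.HW Pool.Agent.Helper22.SL Pool.Agent.Helper57.T5
open Pool.Agent.Helper84.T5g Pool.Agent.Helper44.T5 Pool.Agent.Helper44.T5g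
open Pool.Agent.Helper22.NEARg (wW lt_hb hb_le)
open Pool.Agent.Helper22.NEARsg
open Pool.Agent.Helper37.T5g.NumB (CD_le wW_eq num_main)

/-- at most three levels -/
theorem hb_le_three {m : Sq} {k t l' l : ℕ} (hm : m.Ok) (h : PDs m k t l' l) :
    hb m k t l' l ≤ 3 := by
  by_contra hc
  rw [hb] at hc
  have h1 := lt_hb (m := m) (k := k) (t := t) (l' := l') (l := l) (h := 3) (by omega) (by omega)
  have hj1 := h.jump (t + 1) (by omega) (by omega)
  have hj2 := h.jump (t + 2) (by omega) (by omega)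
  have h4 := Pool.Agent.Helper27.T5g.rL_bounds hm k l
  have h5 := two_jumps hm (show sL m k l - (t + 2) < sL m k l - (t + 1) by omega) h.le hj2 hj1
  have h6 := PZ_mul hm (sL m k l - (t + 2))
  have h3 := Pool.Agent.Helper63.T5g.wW_step hm k l (i := t + 2) (by omega)
  have e : t + 2 + 1 = t + 3 := rfl
  rw [e] at h3
  unfold wW at h1 h3
  omega

theorem Cd_le {m : Sq} {t l' l : ℕ} (hm : OkF m) (h : PDs m m.k t l' l) (o : JF → ℕ) :
    Pool.Agent.Helper39.SL.Cd (PN m m.k t l' l o) ≤ 2 ^ (2 * m.q 0) := by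
  have h3 : hb m m.k t l' l ≤ 3 := hb_le_three hm.toOk h
  have hsp : 1 ≤ 2 * BP m.k := by
    have := Pool.Agent.Helper99.T5g.BP_pos' m.k
    omega
  have h1 : ∀ r ∈ range (PN m m.k t l' l o).h,
      ∏ i, (2 * ((PN m m.k t l' l o).p r i - 1)) ≤ (2 * BP m.k) ^ 3 := by
    intro r _
    calc ∏ i, (2 * ((PN m m.k t l' l o).p r i - 1)) ≤ ∏ _i : Fin 3, (2 * BP m.k) := by
          apply prod_le_prod'
          intro i _
          have h2 : (PN m m.k t l' l o).p r i = pz m.k (sL m m.k l - (t + r)) i := rfl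
          have h4 := pz_le m.k (sL m m.k l - (t + r)) i
          rw [h2]
          omega
      _ = (2 * BP m.k) ^ 3 := by rw [prod_const, card_univ, Fintype.card_fin]
  refine le_trans ?_ (CD_le hm)
  unfold Pool.Agent.Helper39.SL.Cd
  calc ∏ r ∈ range (PN m m.k t l' l o).h, ∏ i, (2 * ((PN m m.k t l' l o).p r i - 1)) ≤
        ∏ _r ∈ range (PN m m.k t l' l o).h, (2 * BP m.k) ^ 3 := prod_le_prod' h1
    _ = ((2 * BP m.k) ^ 3) ^ (hb m m.k t l' l) := by
        rw [prod_const, card_range]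
        rfl
    _ ≤ ((2 * BP m.k) ^ 3) ^ 3 := Nat.pow_le_pow_right (Nat.pos_of_ne_zero (by positivity)) h3

/-- **S10** -/
theorem numReg : NumRegS := by
  intro E1
  refine ⟨5 * 2 ^ 12 + 2 + E1, fun m hm => ⟨0, ?_⟩⟩
  intro t l' l _ h
  have h3 : hb m m.k t l' l ≤ 3 := hb_le_three hm.toOk h
  have hle : t + hb m m.k t l' l ≤ rL m m.k l := hb_le h.tr
  have ht1 := h.t1
  have hrb := Pool.Agent.Helper27.T5g.rL_bounds hm.toOk m.k l
  have hW := wW_eq hm (k := m.k) (l := l) (t := t - 1) (d := hb m m.k t l' l + 1) (by omega)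
  rw [show t - 1 + (hb m m.k t l' l + 1) = t + hb m m.k t l' l by omega] at hW
  have hW2 : SS m (bL m m.k l) ≤ wW m m.k l (t - 1) := by
    unfold wW
    exact SS_mono m (by omega)
  have hW3 : wW m m.k l t ≤ wW m m.k l (t - 1) := by
    unfold wW
    exact SS_mono m (by omega)
  have hW1 : 1 ≤ wW m m.k l (t - 1) := by
    unfold wW SS
    exact Nat.one_le_two_pow
  obtain ⟨n, hn1, hn2, hn3⟩ : ∃ n : ℕ, 1 ≤ n ∧ 42 * (wW m m.k l t : ℝ) + 3 +
      SS m (bL m m.k l) + 90 * wW m m.k l (t - 1) ≤ (n + 1 : ℕ) * dReg m m.k t l' l ∧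
      ∀ D ≤ 2 ^ (2 * m.q 0), (n + 1) ^ 2 ^ (4 * hb m m.k t l' l) *
        (D * 2 ^ (E1 * m.q 0)) ≤ 2 ^ ((5 * 2 ^ 12 + 2 + E1) * m.q 0) := by
    refine ⟨_, Nat.one_le_two_pow, (num_main (hm.toOk.q 0) h3 (by omega) le_rfl hW hW3 hW2 hW1
      E1).1, fun D hD => ?_⟩
    exact (num_main (hm.toOk.q 0) h3 (by omega) hD hW hW3 hW2 hW1 E1).2
  exact ⟨n, hn1, hn2, fun o => hn3 _ (Cd_le hm h o)⟩

end Pool.Agent.Helper37.T5g.NumS
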