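import Pool.Agent.Helper37.T5g.Ev
import Pool.Agent.Helper27.T5b.Own2

/-!
# T5g (MP_12a1af): number of digits of the extra families
-/

set_option autoImplicit false

namespace Pool.Agent.Helper37.T5g

open Finset Pool.Agent.Helper5.ET Pool.Agent.Helper27.T4 Pool.Agent.Helper27.T5b
open Pool.Agent.Helper27.T5 (sp gw)

variable {m : Sq} {k : ℕ}

/-- main digit after the newborn digit number `n` of the triple `T` -/
def gy (m : Sq) (T n : ℕ) : ℕ := ut m T + n * Bq m T

/-- index of the newborn digit number `n` of the triple `T` -/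
noncomputable def gi (m : Sq) (k T n : ℕ) : ℕ := beg (ins m k) (gy m T n)

theorem gy_strictMono (m : Sq) (T : ℕ) : StrictMono (gy m T) := by
  intro a b h
  unfold gy
  exact Nat.add_lt_add_left (Nat.mul_lt_mul_of_pos_right h (Bq_pos _ _)) _

theorem gi_strictMono (m : Sq) (k T : ℕ) : StrictMono (gi m k T) :=
  (beg_strictMono _).comp (gy_strictMono m T)

theorem nE_eq (m : Sq) (k T : ℕ) : nE m k T = gy m T (nn m k T) := rfl

/-- the digit with the index `gi` -/
theorem ow_gi (hm : m.Ok) {t n : ℕ} (hk : k ≤ t) (h1 : 1 ≤ n) (h2 : n ≤ nn m k (t + 1)) :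
    ow (ins m k) own (ex m k) (gi m k (t + 1) n) = Sum.inr (some (t + 1, nf m k (t + 1) n)) := by
  have h3 := ins_gd hm (gd_of hm hk h1 h2)
  have h4 := ow_beg (ins := ins m k) (mo := own) (ex := ex m k) (y := gy m (t + 1) n) (r := 0)
    (by unfold gy; rw [h3]; exact Nat.one_pos)
  rw [add_zero] at h4
  unfold gi
  rw [h4]
  congr 1
  exact ex_gd hm hk h1 h2 0

/-- the newborn digits are exactly the digits with the indices `gi` -/
theorem ow_eq_some (hm : m.Ok) {l T : ℕ} {f : Fin 3} :
    ow (ins m k) own (ex m k) l = Sum.inr (some (T, f)) ↔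
      k < T ∧ ∃ n, 1 ≤ n ∧ n ≤ nn m k T ∧ l = gi m k T n ∧ nf m k T n = f := by
  constructor
  · intro h
    rcases digit_cases (ins m k) l with h1 | ⟨r, hr, h1⟩
    · rw [h1, ow_pos] at h
      exact absurd h (by simp)
    · rw [h1, ow_beg hr] at h
      have h2 := Sum.inr_injective h
      rcases ins_cases (k := k) hm (l1 (ins m k) l) with h3 | ⟨j, h3, _⟩ | ⟨t, n, hk, a1, a2, a3, a4⟩
      · omega
      · rw [h3, ex_bb] at h2
        exact absurd h2 (by simp)
      · rw [a3, ex_gd hm hk a1 a2] at h2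
        have h5 := Option.some_injective _ h2
        rw [Prod.mk.injEq] at h5
        obtain ⟨rfl, h6⟩ := h5
        refine ⟨by omega, n, a1, a2, ?_, h6⟩
        unfold gi gy
        rw [← a3]
        omega
  · rintro ⟨hT, n, a1, a2, rfl, rfl⟩
    obtain ⟨t, rfl⟩ := Nat.exists_eq_add_of_lt hT
    exact ow_gi hm (by omega) a1 a2

/-- number of newborn digits of the triple `T` with index `< l` -/
noncomputable def nc (m : Sq) (k T l : ℕ) : ℕ := ((Icc 1 (nn m k T)).filter (fun n => gi m k T n < l)).card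

theorem nc_le (m : Sq) (k T l : ℕ) : nc m k T l ≤ nn m k T := by
  unfold nc
  refine (card_filter_le _ _).trans ?_
  rw [Nat.card_Icc]
  omega

theorem filter_gi (m : Sq) (k T l : ℕ) :
    (Icc 1 (nn m k T)).filter (fun n => gi m k T n < l) = Icc 1 (nc m k T l) := by
  have h0 : ∃ c, c ≤ nn m k T ∧ (Icc 1 (nn m k T)).filter (fun n => gi m k T n < l) = Icc 1 c := by
    by_cases h : ∃ n, 1 ≤ n ∧ l ≤ gi m k T n
    · have hs := Nat.find_spec h
      by_cases h2 : Nat.find h ≤ nn m k T
      · refine ⟨Nat.find h - 1, by omega, ?_⟩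
        ext n
        simp only [mem_filter, mem_Icc]
        constructor
        · rintro ⟨⟨b1, b2⟩, b3⟩
          refine ⟨b1, ?_⟩
          by_contra hc
          have := (gi_strictMono m k T).monotone (show Nat.find h ≤ n by omega)
          omega
        · rintro ⟨b1, b2⟩
          have := Nat.find_min h (show n < Nat.find h by omega)
          exact ⟨⟨b1, by omega⟩, by by_contra hc; exact this ⟨b1, not_lt.1 hc⟩⟩
      · refine ⟨nn m k T, le_rfl, ?_⟩
        ext n
        simp only [mem_filter, mem_Icc]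
        constructor
        · exact fun b => b.1
        · rintro ⟨b1, b2⟩
          have := Nat.find_min h (show n < Nat.find h by omega)
          exact ⟨⟨b1, b2⟩, by by_contra hc; exact this ⟨b1, not_lt.1 hc⟩⟩
    · push Not at h
      refine ⟨nn m k T, le_rfl, ?_⟩
      ext n
      simp only [mem_filter, mem_Icc]
      exact ⟨fun b => b.1, fun b => ⟨b, h n b.1⟩⟩
  obtain ⟨c, _, hc2⟩ := h0
  have hc3 : nc m k T l = c := by
    unfold nc
    rw [hc2, Nat.card_Icc]
    omega
  rw [hc2, hc3]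

theorem le_nc_iff {T l n : ℕ} (h1 : 1 ≤ n) (h2 : n ≤ nn m k T) :
    n ≤ nc m k T l ↔ gi m k T n < l := by
  have h := filter_gi m k T l
  have h3 : n ∈ (Icc 1 (nn m k T)).filter (fun n => gi m k T n < l) ↔ n ∈ Icc 1 (nc m k T l) := by
    rw [h]
  simp only [mem_filter, mem_Icc] at h3
  constructor
  · intro h4
    exact (h3.2 ⟨h1, h4⟩).2
  · intro h4
    exact (h3.1 ⟨⟨h1, h2⟩, h4⟩).2

theorem nc_mono (m : Sq) (k T : ℕ) : Monotone (nc m k T) := by
  intro a b hab
  apply card_le_card
  intro n hn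
  rw [mem_filter] at hn ⊢
  exact ⟨hn.1, hn.2.trans_le hab⟩

/-- index and main position -/
theorem gi_lt_of {T l n : ℕ} (h : gy m T n < l1 (ins m k) l) : gi m k T n < l :=
  (beg_le_pos _ _).trans_lt (lt_l1_iff.1 h)

theorem le_l1_of_gi {T l n : ℕ} (h : gi m k T n < l) : gy m T n ≤ l1 (ins m k) l := by
  by_contra hc
  push Not at hc
  have h1 := (beg_strictMono (ins m k)) hc
  have h2 := le_pos_l1 (ins m k) l
  have h3 := beg_succ (ins m k) (l1 (ins m k) l)
  have h4 := (beg_strictMono (ins m k)).monotone (Nat.succ_le_of_lt hc)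
  simp only [Nat.succ_eq_add_one] at h4
  unfold gi at h
  omega

/-- before the growth -/
theorem nc_eq_zero {T l : ℕ} (h : l1 (ins m k) l ≤ ut m T) : nc m k T l = 0 := by
  by_contra hc
  have h1 : 1 ≤ nc m k T l := Nat.pos_of_ne_zero hc
  have h2 := le_l1_of_gi ((le_nc_iff le_rfl (h1.trans (nc_le _ _ _ _))).1 h1)
  have h3 := Bq_pos m T
  unfold gy at h2
  omega

/-- after the growth -/
theorem nc_eq_nn {T l : ℕ} (h : nE m k T < l1 (ins m k) l) : nc m k T l = nn m k T := by
  apply le_antisymm (nc_le _ _ _ _)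
  rcases Nat.eq_zero_or_pos (nn m k T) with h1 | h1
  · omega
  · exact (le_nc_iff h1 le_rfl).2 (gi_lt_of (by rwa [← nE_eq]))

/-- **count of a newborn family** -/
theorem ct_some (hm : m.Ok) {T : ℕ} (hT : k < T) (f : Fin 3) (l : ℕ) :
    ct (ins m k) own (ex m k) (Sum.inr (some (T, f))) l =
      ((Icc 1 (nc m k T l)).filter (fun n => nf m k T n = f)).card := by
  unfold ct
  rw [← filter_gi, filter_filter]
  symm
  apply card_bij (fun n _ => gi m k T n)
  · intro n hn
    rw [mem_filter, mem_Icc] at hn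
    rw [mem_filter, mem_range]
    exact ⟨hn.2.1, (ow_eq_some hm).2 ⟨hT, n, hn.1.1, hn.1.2, rfl, hn.2.2⟩⟩
  · intro n _ n' _ h
    exact (gi_strictMono m k T).injective h
  · intro i hi
    rw [mem_filter, mem_range] at hi
    obtain ⟨_, n, a1, a2, a3, a4⟩ := (ow_eq_some hm).1 hi.2
    exact ⟨n, by rw [mem_filter, mem_Icc]; exact ⟨⟨a1, a2⟩, a3 ▸ hi.1, a4⟩, a3.symm⟩

/-- the triples `≤ k` have no digits -/
theorem ct_some_le (hm : m.Ok) {T : ℕ} (hT : T ≤ k) (f : Fin 3) (l : ℕ) :
    ct (ins m k) own (ex m k) (Sum.inr (some (T, f))) l = 0 := by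
  unfold ct
  rw [card_eq_zero, filter_eq_empty_iff]
  intro i _ h
  have := ((ow_eq_some hm).1 h).1
  omega

theorem nf_eq_zero {T n : ℕ} : nf m k T n = 0 ↔ n ≤ zf m k T 0 := by
  unfold nf
  split_ifs with h1 h2
  · exact ⟨fun _ => h1, fun _ => rfl⟩
  · exact ⟨fun h => absurd h (by decide), fun h => absurd h h1⟩
  · exact ⟨fun h => absurd h (by decide), fun h => absurd h h1⟩

theorem nf_eq_one {T n : ℕ} : nf m k T n = 1 ↔ zf m k T 0 < n ∧ n ≤ zf m k T 0 + zf m k T 1 := by
  unfold nf
  split_ifs with h1 h2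
  · exact ⟨fun h => absurd h (by decide), fun h => absurd h.1 (by omega)⟩
  · exact ⟨fun _ => ⟨by omega, h2⟩, fun _ => rfl⟩
  · exact ⟨fun h => absurd h (by decide), fun h => absurd h.2 h2⟩

theorem nf_eq_two {T n : ℕ} : nf m k T n = 2 ↔ zf m k T 0 + zf m k T 1 < n := by
  unfold nf
  split_ifs with h1 h2
  · exact ⟨fun h => absurd h (by decide), fun h => absurd h (by omega)⟩
  · exact ⟨fun h => absurd h (by decide), fun h => absurd h2 (by omega)⟩
  · exact ⟨fun _ => by omega, fun _ => rfl⟩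

theorem ct_F (hm : m.Ok) {T : ℕ} (hT : k < T) (l : ℕ) :
    ct (ins m k) own (ex m k) (Sum.inr (some (T, 0))) l = min (nc m k T l) (zf m k T 0) := by
  rw [ct_some hm hT]
  have h : (Icc 1 (nc m k T l)).filter (fun n => nf m k T n = 0) =
      Icc 1 (min (nc m k T l) (zf m k T 0)) := by
    ext n
    simp only [mem_filter, mem_Icc, nf_eq_zero]
    omega
  rw [h, Nat.card_Icc]
  omega

theorem ct_one (hm : m.Ok) {T : ℕ} (hT : k < T) (l : ℕ) :
    ct (ins m k) own (ex m k) (Sum.inr (some (T, 1))) l =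
      min (nc m k T l - zf m k T 0) (zf m k T 1) := by
  rw [ct_some hm hT]
  have h : (Icc 1 (nc m k T l)).filter (fun n => nf m k T n = 1) =
      Icc (zf m k T 0 + 1) (min (nc m k T l) (zf m k T 0 + zf m k T 1)) := by
    ext n
    simp only [mem_filter, mem_Icc, nf_eq_one]
    omega
  rw [h, Nat.card_Icc]
  omega

theorem ct_two (hm : m.Ok) {T : ℕ} (hT : k < T) (l : ℕ) :
    ct (ins m k) own (ex m k) (Sum.inr (some (T, 2))) l =
      nc m k T l - zf m k T 0 - zf m k T 1 := by
  rw [ct_some hm hT]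
  have h : (Icc 1 (nc m k T l)).filter (fun n => nf m k T n = 2) =
      Icc (zf m k T 0 + zf m k T 1 + 1) (nc m k T l) := by
    ext n
    simp only [mem_filter, mem_Icc, nf_eq_two]
    omega
  rw [h, Nat.card_Icc]
  omega

/-- the total number of digits of a triple -/
theorem sum_ct (hm : m.Ok) {T : ℕ} (hT : k < T) (l : ℕ) :
    ∑ f : Fin 3, ct (ins m k) own (ex m k) (Sum.inr (some (T, f))) l = nc m k T l := by
  rw [Fin.sum_univ_three, ct_F hm hT, ct_one hm hT, ct_two hm hT]
  omega

/-- a family is not larger than its final size -/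
theorem ct_some_le_zf (hm : m.Ok) (T : ℕ) (f : Fin 3) (l : ℕ) :
    ct (ins m k) own (ex m k) (Sum.inr (some (T, f))) l ≤ zf m k T f := by
  rcases Nat.lt_or_ge k T with hT | hT
  · have h := nc_le m k T l
    unfold nn at h
    fin_cases f
    · exact (ct_F hm hT l).le.trans (min_le_right _ _)
    · exact (ct_one hm hT l).le.trans (min_le_right _ _)
    · refine (ct_two hm hT l).le.trans ?_
      show _ ≤ zf m k T 2
      omega
  · rw [ct_some_le hm hT]
    exact Nat.zero_le _

/-- **before the growth** -/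
theorem ct_before (hm : m.Ok) {T l : ℕ} (f : Fin 3) (h : l1 (ins m k) l ≤ ut m T) :
    ct (ins m k) own (ex m k) (Sum.inr (some (T, f))) l = 0 := by
  rcases Nat.lt_or_ge k T with hT | hT
  · rw [ct_some hm hT, nc_eq_zero h]
    simp
  · exact ct_some_le hm hT f l

/-- **after the growth** -/
theorem ct_after (hm : m.Ok) {T l : ℕ} (hT : k < T) (f : Fin 3)
    (h : nE m k T < l1 (ins m k) l) :
    ct (ins m k) own (ex m k) (Sum.inr (some (T, f))) l = zf m k T f := by
  have h1 := nc_eq_nn h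
  unfold nn at h1
  fin_cases f
  · refine (ct_F hm hT l).trans ?_
    show _ = zf m k T 0
    omega
  · refine (ct_one hm hT l).trans ?_
    show _ = zf m k T 1
    omega
  · refine (ct_two hm hT l).trans ?_
    show _ = zf m k T 2
    omega

/-- split levels are complete -/
theorem ct_split (hm : m.Ok) {T l : ℕ} (hT : k < T) (f : Fin 3)
    (h : T ≤ sv m k (l1 (ins m k) l)) (hl : bb 0 ≤ l1 (ins m k) l) :
    ct (ins m k) own (ex m k) (Sum.inr (some (T, f))) l = zf m k T f := by
  obtain ⟨t, rfl⟩ := Nat.exists_eq_add_of_lt hT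
  apply ct_after hm hT
  have h1 := (lt_sv_iff hm (show k ≤ k + t by omega) hl).1 (show k + t < _ by omega)
  have h2 := Zt_pos m (k + t + 1)
  unfold nS at h1
  omega

/-- the triples after the newborn one have no digits -/
theorem ct_late (hm : m.Ok) {T l : ℕ} (f : Fin 3)
    (h : sv m k (l1 (ins m k) l) + 1 < T) (hl : bb 0 ≤ l1 (ins m k) l) :
    ct (ins m k) own (ex m k) (Sum.inr (some (T, f))) l = 0 := by
  apply ct_before hm
  obtain ⟨t, rfl⟩ := Nat.exists_eq_add_of_lt h
  have hk := k_le_sv hm k (l1 (ins m k) l)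
  set s := sv m k (l1 (ins m k) l) with hs
  have h1 : ¬ nS m k (s + 1) ≤ l1 (ins m k) l := by
    intro h2
    have := (lt_sv_iff hm hk hl).2 h2
    omega
  -- `nS (s + 1) ≤ bb (kt (s + 1) + 1) ≤ ut (s + 2 + t)`
  have h3 := nD_le hm k s
  have h4 := bb_add_len (kt m (s + 1))
  have h5 := nE_le_nD m k (s + 1)
  have h6 : kt m (s + 1) < kt m (s + 1 + t + 1) := kt_strictMono hm (by omega)
  have h7 : bb (kt m (s + 1) + 1) ≤ bb (kt m (s + 1 + t + 1)) := bb_strictMono.monotone h6
  have h8 := bb_le_ut m (s + 1 + t + 1)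
  omega

end Pool.Agent.Helper37.T5g
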