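import Pool.Agent.Helper63.T5b.NumAbs

/-!
# T5g: the bottom of the static block when the last windows have one element

`PP P I X {v} {v'} ≤ Ir P.h` (all labels which fit lie in one class of the last front of the lower
state), so the price of the last level beats the number of the labels for every distance `D`.
-/

set_option autoImplicit false

namespace Pool.Agent.Helper37.T5g

open Finset Real Pool.Agent.Helper22.SL Pool.Agent.Helper87.SL Pool.Agent.Helper63.T5b

variable {κ : Type*} {P : Pr κ} {D : ℝ} {w s s' : ℕ → ℝ} {K : ℝ} {I : ℕ} {X Ir : ℕ → ℕ}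

/-- windows with one element: the labels lie in one class -/
theorem PP_one_le (hX : Tg P I X Ir) (v v' : ℕ) : PP P I X {v} {v'} ≤ Ir P.h := by
  refine le_trans ?_ (hX.cls P.h le_rfl (P.M * P.L P.h * v + P.M' * P.L P.h * v'))
  unfold PP
  refine Finset.card_le_card_of_injOn (fun q => q.1) ?_ ?_
  · intro q hq
    obtain ⟨h1, h2⟩ := Finset.mem_filter.1 (Finset.mem_coe.1 hq)
    obtain ⟨h3, h4⟩ := Finset.mem_product.1 h1
    obtain ⟨h5, h6⟩ := Finset.mem_product.1 h4
    rw [Finset.mem_singleton] at h5 h6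
    rw [h5, h6] at h2
    refine Finset.mem_coe.2 (Finset.mem_filter.2 ⟨h3, ?_⟩)
    exact (Finset.mem_filter.1 h2).2.2.1.symm
  · intro q hq q' hq' he
    have h1 := Finset.mem_product.1 (Finset.mem_product.1
      (Finset.mem_filter.1 (Finset.mem_coe.1 hq)).1).2
    have h2 := Finset.mem_product.1 (Finset.mem_product.1
      (Finset.mem_filter.1 (Finset.mem_coe.1 hq')).1).2
    rw [Finset.mem_singleton, Finset.mem_singleton] at h1 h2
    exact Prod.ext he (Prod.ext (h1.1.trans h2.1.symm) (h1.2.trans h2.2.symm))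

/-- the price of the last level against the number of the labels in a class -/
theorem NumX.hB_last (h : NumX P D w s s' K) {CI : ℝ} {J : ℕ} (hh : 1 ≤ P.h)
    (h1 : D ≤ s' P.h → (J : ℝ) ≤ exp CI) (h2 : (J : ℝ) ≤ exp (CI + D / 2)) :
    J * P.A P.h * P.pc P.h ≤ 2 * K * exp (CI - w P.h / 512) := by
  have e0 := h.lab hh le_rfl h1 h2
  have e2 := h.A P.h le_rfl
  have hK := h.K1
  obtain ⟨t, ht⟩ : ∃ t, P.h = t + 1 := ⟨P.h - 1, by omega⟩
  have e1 := h.Dl t (by omega)
  have e6 := h.deepX t (by omega)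
  have ew : w (t + 1) = w P.h := by rw [ht]
  rw [ew] at e6
  have hw := h.w0
  set q : ℝ := (P.q t 2 : ℝ) with hq
  have hq0 : 0 < q := h.q_pos (by omega) 2
  have e7 : exp (0.249 * w t) ≤ q := h.q2 t (by omega)
  have t2 : (J : ℝ) * (1 / q) ≤ exp (CI - w P.h / 512) := by
    have d1 : (1 : ℝ) / q ≤ exp (-(0.249 * w t)) := by
      rw [exp_neg, one_div]
      exact inv_anti₀ (exp_pos _) e7
    calc (J : ℝ) * (1 / q) ≤ exp (CI + D / 2) * exp (-(0.249 * w t)) :=
          mul_le_mul h2 d1 (by positivity) (exp_pos _).le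
      _ = exp (CI + D / 2 - 0.249 * w t) := by
          rw [← exp_add]
          congr 1
      _ ≤ _ := by
          apply exp_le_exp.2
          linarith
  have hA0 : 0 ≤ P.A P.h := Finset.prod_nonneg (fun _ _ => by positivity)
  have d1 : P.pc P.h = (P.F' P.h : ℝ) / P.F P.h + 1 / q := by
    have e : P.pc (t + 1) = (P.F' (t + 1) : ℝ) / P.F (t + 1) + 1 / (P.q t 2 : ℝ) := rfl
    rw [ht, e]
  have key : (J : ℝ) * P.pc P.h ≤ 2 * exp (CI - w P.h / 512) := by
    rw [d1, mul_add]
    linarith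
  have hpc : 0 ≤ (J : ℝ) * P.pc P.h := by
    rw [d1]
    positivity
  calc (J : ℝ) * P.A P.h * P.pc P.h = P.A P.h * (J * P.pc P.h) := by ring
    _ ≤ K * (2 * exp (CI - w P.h / 512)) := mul_le_mul e2 key hpc (by linarith)
    _ = 2 * K * exp (CI - w P.h / 512) := by ring

/-- **the bottom with one element**: no upper or lower bound of `D` is needed -/
theorem NumX.bot_one (h : NumX P D w s s' K) (hX : Tg P I X Ir) (v v' : ℕ) {CI : ℝ}
    (hh : 1 ≤ P.h) (h1 : D ≤ s' P.h → (Ir P.h : ℝ) ≤ exp CI)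
    (h2 : (Ir P.h : ℝ) ≤ exp (CI + D / 2)) {δ : ℝ}
    (hδ : δ + Real.log (2 * K) + CI ≤ w P.h / 512) :
    PP P I X {v} {v'} * P.A P.h * P.pc P.h ≤ exp (-δ) := by
  have hK := h.K1
  have hA0 : 0 ≤ P.A P.h := Finset.prod_nonneg (fun _ _ => by positivity)
  have hpc : 0 ≤ P.pc P.h := by
    obtain ⟨t, ht⟩ : ∃ t, P.h = t + 1 := ⟨P.h - 1, by omega⟩
    have e : P.pc (t + 1) = (P.F' (t + 1) : ℝ) / P.F (t + 1) + 1 / (P.q t 2 : ℝ) := rfl
    rw [ht, e]
    positivity
  have e1 : (PP P I X {v} {v'} : ℝ) ≤ Ir P.h := by exact_mod_cast PP_one_le hX v v'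
  calc PP P I X {v} {v'} * P.A P.h * P.pc P.h ≤ Ir P.h * P.A P.h * P.pc P.h := by gcongr
    _ ≤ 2 * K * exp (CI - w P.h / 512) := NumX.hB_last h hh h1 h2
    _ = exp (Real.log (2 * K) + (CI - w P.h / 512)) := by
        rw [exp_add, exp_log (by linarith)]
    _ ≤ exp (-δ) := by
        apply exp_le_exp.2
        linarith

end Pool.Agent.Helper37.T5g
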