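import Mathlib.Tactic

/-!
# T5g (MP_12a1af): the data of a schedule

The sizes are `SS m t = 2 ^ aa m t` with `aa m (t + 1) = aa m t + m.q t + 1`.  `m.kap t` is the
addition to the threshold of the special era of the triple `t`, `m.gr t` the addition to the step of
the growth, `m.k` the number of active levels.

Instances: T5b is `q t = aa t / m`, `kap = 0`, `gr (t + 1) = aa t / (4 m ^ 2)`, `k = m ^ 2`; a fixed
quotient of the sizes is `q t = ρ`, `kap t = 250 + ρ / 4`, `gr t = ρ / 8`.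
-/

set_option autoImplicit false

namespace Pool.Agent.Helper37.T5g

/-- the data of a schedule -/
structure Sq where
  /-- first exponent -/
  a0 : ℕ
  /-- exponents of the quotients of the sizes (minus one) -/
  q : ℕ → ℕ
  /-- addition to the exponent of the threshold of the special era -/
  kap : ℕ → ℕ
  /-- addition to the exponent of the step of the growth -/
  gr : ℕ → ℕ
  /-- number of active levels -/
  k : ℕ

/-- exponents of the sizes -/
def aa (m : Sq) : ℕ → ℕ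
  | 0 => m.a0
  | t + 1 => aa m t + m.q t + 1

/-- requirements for a schedule -/
structure Sq.Ok (m : Sq) : Prop where
  a0 : 400 ≤ m.a0
  q : ∀ t, 400 ≤ m.q t
  qa : ∀ t, m.q t + 1 ≤ aa m t
  qm : ∀ t, m.q t ≤ m.q (t + 1)
  qs : ∀ t, m.q (t + 1) ≤ 2 * m.q t + 1
  /-- the growth is short against the border -/
  T1 : ∀ t, m.q t + m.gr (t + 1) + 220 ≤ m.q (t + 1) + m.kap (t + 1)
  /-- consecutive special eras are far from each other -/
  T2 : ∀ t, m.kap t + 250 ≤ m.q (t + 1) + m.kap (t + 1)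
  k2 : 2 ≤ m.k

/-! ## the two instances -/

/-- exponents of the sizes of T5b -/
def aT (μ : ℕ) : ℕ → ℕ
  | 0 => 400 * μ ^ 2
  | t + 1 => aT μ t + aT μ t / μ + 1

/-- the schedule of T5b -/
def sqT (μ : ℕ) : Sq where
  a0 := 400 * μ ^ 2
  q := fun t => aT μ t / μ
  kap := fun _ => 0
  gr := fun t => aT μ (t - 1) / (4 * μ ^ 2)
  k := μ ^ 2

theorem aa_sqT (μ t : ℕ) : aa (sqT μ) t = aT μ t := by
  induction t with
  | zero => rfl
  | succ t ih =>
    show aa (sqT μ) t + aT μ t / μ + 1 = aT μ t + aT μ t / μ + 1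
    rw [ih]

/-- a fixed quotient of the sizes, `ρ = 20 κ + 400` with `κ` active levels -/
def sqF (κ a : ℕ) : Sq where
  a0 := 800 + 20 * κ + a
  q := fun _ => 20 * κ + 400
  kap := fun _ => 250 + (20 * κ + 400) / 4
  gr := fun _ => (20 * κ + 400) / 8
  k := κ

theorem aa_sqF (κ a t : ℕ) : aa (sqF κ a) t = 800 + 20 * κ + a + t * (20 * κ + 401) := by
  induction t with
  | zero => show 800 + 20 * κ + a = _; ring
  | succ t ih =>
    show aa (sqF κ a) t + (20 * κ + 400) + 1 = _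
    rw [ih]
    ring

theorem sqF_ok {κ : ℕ} (hκ : 2 ≤ κ) (a : ℕ) : (sqF κ a).Ok where
  a0 := by show 400 ≤ 800 + 20 * κ + a; omega
  q := fun t => by show 400 ≤ 20 * κ + 400; omega
  qa := fun t => by
    rw [aa_sqF]
    show 20 * κ + 400 + 1 ≤ _
    omega
  qm := fun _ => le_rfl
  qs := fun t => by show 20 * κ + 400 ≤ 2 * (20 * κ + 400) + 1; omega
  T1 := fun t => by
    show 20 * κ + 400 + (20 * κ + 400) / 8 + 220 ≤ 20 * κ + 400 + (250 + (20 * κ + 400) / 4)
    omega
  T2 := fun t => by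
    show 250 + (20 * κ + 400) / 4 + 250 ≤ 20 * κ + 400 + (250 + (20 * κ + 400) / 4)
    omega
  k2 := hκ

theorem aT_succ (μ t : ℕ) : aT μ (t + 1) = aT μ t + aT μ t / μ + 1 := rfl

theorem aT_ge {μ : ℕ} (hμ : 0 < μ) (t : ℕ) : 400 * μ * μ + 400 * t ≤ aT μ t := by
  induction t with
  | zero =>
    have h : aT μ 0 = 400 * μ * μ := by
      show 400 * μ ^ 2 = _
      ring
    omega
  | succ t ih =>
    have h1 : 400 ≤ aT μ t / μ := by
      refine (Nat.le_div_iff_mul_le hμ).2 ?_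
      have h2 : 400 * μ ≤ 400 * μ * μ := Nat.le_mul_of_pos_right _ hμ
      omega
    rw [aT_succ]
    calc 400 * μ * μ + 400 * (t + 1) = (400 * μ * μ + 400 * t) + 400 := by ring
      _ ≤ aT μ t + aT μ t / μ := Nat.add_le_add ih h1
      _ ≤ _ := Nat.le_succ _

theorem sqT_ok {μ : ℕ} (hμ : 2 ≤ μ) : (sqT μ).Ok := by
  have h0 : 0 < μ := by omega
  have hd : ∀ t, 400 * μ ≤ aT μ t / μ := fun t => by
    refine (Nat.le_div_iff_mul_le h0).2 ?_
    have := aT_ge h0 t
    omega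
  have hsucc := aT_succ μ
  refine ⟨?_, fun t => ?_, fun t => ?_, fun t => ?_, fun t => ?_, fun t => ?_, fun t => ?_, ?_⟩
  · show 400 ≤ 400 * μ ^ 2
    have : 1 ≤ μ ^ 2 := Nat.one_le_pow _ _ h0
    omega
  · show 400 ≤ aT μ t / μ
    have := hd t
    omega
  · rw [aa_sqT]
    show aT μ t / μ + 1 ≤ aT μ t
    have h1 : aT μ t / μ ≤ aT μ t / 2 := Nat.div_le_div_left hμ (by norm_num)
    have h2 := aT_ge h0 t
    have h3 : 1 ≤ μ * μ := Nat.mul_pos h0 h0
    have h4 : 400 * μ * μ = 400 * (μ * μ) := by ring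
    generalize aT μ t / μ = x at *
    omega
  · show aT μ t / μ ≤ aT μ (t + 1) / μ
    rw [hsucc]
    exact Nat.div_le_div_right (le_trans (Nat.le_add_right _ _) (Nat.le_succ _))
  · show aT μ (t + 1) / μ ≤ 2 * (aT μ t / μ) + 1
    rw [hsucc]
    have h3 : aT μ t / μ + 1 ≤ μ * (aT μ t / μ + 1) := Nat.le_mul_of_pos_left _ h0
    calc (aT μ t + aT μ t / μ + 1) / μ ≤ (aT μ t + μ * (aT μ t / μ + 1)) / μ :=
          Nat.div_le_div_right (by omega)
      _ = aT μ t / μ + (aT μ t / μ + 1) := Nat.add_mul_div_left _ _ h0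
      _ = _ := by ring
  · show aT μ t / μ + aT μ (t + 1 - 1) / (4 * μ ^ 2) + 220 ≤ aT μ (t + 1) / μ + 0
    rw [Nat.add_sub_cancel, hsucc]
    have h1 := hd t
    have h2 : aT μ t / μ + aT μ t / μ / μ ≤ (aT μ t + aT μ t / μ + 1) / μ :=
      (Nat.div_add_div_le_add_div).trans (Nat.div_le_div_right (Nat.le_succ _))
    have h3 : 400 ≤ aT μ t / μ / μ := (Nat.le_div_iff_mul_le h0).2 h1
    have h4 : aT μ t / (4 * μ ^ 2) = aT μ t / μ / μ / 4 := by
      rw [Nat.div_div_eq_div_mul, Nat.div_div_eq_div_mul]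
      congr 1
      ring
    rw [h4]
    omega
  · show 0 + 250 ≤ aT μ (t + 1) / μ + 0
    have := hd (t + 1)
    omega
  · show 2 ≤ μ ^ 2
    nlinarith

end Pool.Agent.Helper37.T5g
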